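import Pool.Agent.Y501.SY.FinalV

/-!
# Averages of continuous functions over balls of variable radius: integral bounds
-/

set_option autoImplicit false

open Set Filter Topology MeasureTheory
open scoped Manifold ContDiff ENNReal

noncomputable section

namespace Pool.Agent.L7h49.LT

open Pool.Agent.Y501.SY
open Pool.Agent.Y515.SY (LL LL_apply moll_cs moll_int)

variable {d : ℕ}

/-- the average of `γ` over the points `p + χ(p) y` -/
def av (ρ χ γ : E d → ℝ) (p : E d) : ℝ := ∫ y, ρ y * γ (p + χ p • y)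

theorem det_lb : ∃ c : ℝ, 0 < c ∧ ∀ A : E d →L[ℝ] E d, ‖A‖ ≤ 1 / 2 →
    c ≤ |(ContinuousLinearMap.id ℝ (E d) + A).det| := by
  have hK : IsCompact (Metric.closedBall (0 : E d →L[ℝ] E d) (1 / 2)) := isCompact_closedBall _ _
  have hf : Continuous (fun A : E d →L[ℝ] E d => |(ContinuousLinearMap.id ℝ (E d) + A).det|) :=
    (ContinuousLinearMap.continuous_det.comp (continuous_const.add continuous_id)).abs
  obtain ⟨A₀, hA₀, hmin⟩ := hK.exists_isMinOn ⟨0, Metric.mem_closedBall_self (by norm_num)⟩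
    hf.continuousOn
  refine ⟨|(ContinuousLinearMap.id ℝ (E d) + A₀).det|, ?_, fun A hA => hmin (by simpa using hA)⟩
  rw [abs_pos]
  have hA₀' : ‖A₀‖ ≤ 1 / 2 := by simpa using hA₀
  have hinj : Function.Injective
      ((ContinuousLinearMap.id ℝ (E d) + A₀ : E d →L[ℝ] E d) : E d →ₗ[ℝ] E d) := by
    rw [← LinearMap.ker_eq_bot, LinearMap.ker_eq_bot']
    intro v hv
    have h1 : v + A₀ v = 0 := hv
    have h2 : ‖v‖ ≤ 1 / 2 * ‖v‖ := by
      have h3 : v = -(A₀ v) := eq_neg_of_add_eq_zero_left h1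
      calc ‖v‖ = ‖A₀ v‖ := by rw [h3, norm_neg, ← h3]
        _ ≤ ‖A₀‖ * ‖v‖ := A₀.le_opNorm v
        _ ≤ _ := mul_le_mul_of_nonneg_right hA₀' (norm_nonneg _)
    have h4 : ‖v‖ ≤ 0 := by linarith
    exact norm_le_zero_iff.1 h4
  intro h0
  have h1 := LinearMap.bot_lt_ker_of_det_eq_zero (f :=
    ((ContinuousLinearMap.id ℝ (E d) + A₀ : E d →L[ℝ] E d) : E d →ₗ[ℝ] E d)) h0
  rw [LinearMap.ker_eq_bot.2 hinj] at h1
  exact lt_irrefl _ h1

/-- change of variables, with a lower bound for the determinant -/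
theorem cv {f : E d → E d} {f' : E d → (E d →L[ℝ] E d)} {K : Set (E d)} (hK : MeasurableSet K)
    (hf' : ∀ x ∈ K, HasFDerivAt f (f' x) x) (hf : InjOn f K) {c : ℝ} (hc : 0 < c)
    (hdet : ∀ x ∈ K, c ≤ |(f' x).det|) (h : E d → ℝ≥0∞) :
    ∫⁻ x in K, h (f x) ≤ (ENNReal.ofReal c)⁻¹ * ∫⁻ x in f '' K, h x := by
  have hc' : ENNReal.ofReal c ≠ 0 := by
    rw [Ne, ENNReal.ofReal_eq_zero, not_le]; exact hc
  rw [lintegral_image_eq_lintegral_abs_det_fderiv_mul volume hK
    (fun x hx => (hf' x hx).hasFDerivWithinAt) hf]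
  rw [← lintegral_const_mul' _ _ (ENNReal.inv_ne_top.2 hc')]
  refine setLIntegral_mono' hK fun x hx => ?_
  rw [← mul_assoc]
  have h1 : 1 ≤ (ENNReal.ofReal c)⁻¹ * ENNReal.ofReal |(f' x).det| := by
    calc (1 : ℝ≥0∞) = (ENNReal.ofReal c)⁻¹ * ENNReal.ofReal c :=
          (ENNReal.inv_mul_cancel hc' ENNReal.ofReal_ne_top).symm
      _ ≤ _ := mul_le_mul_right (ENNReal.ofReal_le_ofReal (hdet x hx)) _
  calc h (f x) = 1 * h (f x) := (one_mul _).symm
    _ ≤ _ := mul_le_mul_left h1 _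

theorem lip {χ : E d → ℝ} (hχ : ContDiff ℝ ∞ χ) {D : ℝ} (hD : ∀ p, ‖fderiv ℝ χ p‖ ≤ D)
    (p p' : E d) : |χ p - χ p'| ≤ D * ‖p - p'‖ := by
  have := (convex_univ (𝕜 := ℝ) (E := E d)).norm_image_sub_le_of_norm_fderiv_le
    (fun x _ => hχ.differentiable (by simp) x) (fun x _ => hD x) (mem_univ p') (mem_univ p)
  simpa [Real.norm_eq_abs] using this

/-- integral of a translated function -/
theorem shift_le : ∃ C : ℝ≥0∞, C ≠ ⊤ ∧ ∀ {χ : E d → ℝ}, ContDiff ℝ ∞ χ → ∀ {D : ℝ},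
    (∀ p, ‖fderiv ℝ χ p‖ ≤ D) → ∀ y : E d, D * ‖y‖ ≤ 1 / 2 → ∀ {T Q : Set (E d)},
    MeasurableSet T → (∀ p ∈ T, p + χ p • y ∈ Q) → ∀ h : E d → ℝ≥0∞,
    ∫⁻ p in T, h (p + χ p • y) ≤ C * ∫⁻ x in Q, h x := by
  obtain ⟨c, hc, hdet⟩ := det_lb (d := d)
  have hc' : ENNReal.ofReal c ≠ 0 := by
    rw [Ne, ENNReal.ofReal_eq_zero, not_le]; exact hc
  refine ⟨(ENNReal.ofReal c)⁻¹, ENNReal.inv_ne_top.2 hc', ?_⟩
  intro χ hχ D hD y hy T Q hT hTQ h
  have hder : ∀ p, HasFDerivAt (fun p => p + χ p • y)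
      (ContinuousLinearMap.id ℝ (E d) + (fderiv ℝ χ p).smulRight y) p := fun p =>
    (hasFDerivAt_id p).add ((hχ.differentiable (by simp) p).hasFDerivAt.smul_const y)
  have h1 := cv (f := fun p => p + χ p • y)
    (f' := fun p => ContinuousLinearMap.id ℝ (E d) + (fderiv ℝ χ p).smulRight y) hT
    (fun x _ => hder x) (fun p _ p' _ he => by
      have he' : p + χ p • y = p' + χ p' • y := he
      have h2 : p - p' = (χ p' - χ p) • y := by
        rw [sub_smul]
        have := congrArg (fun z => z - χ p • y - p') he'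
        simp only [add_sub_cancel_right] at this
        rw [this]
        abel
      have h3 : ‖p - p'‖ ≤ 1 / 2 * ‖p - p'‖ := by
        calc ‖p - p'‖ = |χ p' - χ p| * ‖y‖ := by rw [h2, norm_smul, Real.norm_eq_abs]
          _ ≤ (D * ‖p' - p‖) * ‖y‖ := mul_le_mul_of_nonneg_right (lip hχ hD _ _) (norm_nonneg _)
          _ = (D * ‖y‖) * ‖p - p'‖ := by rw [norm_sub_rev]; ring
          _ ≤ _ := mul_le_mul_of_nonneg_right hy (norm_nonneg _)
      have h4 : ‖p - p'‖ ≤ 0 := by linarith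
      exact sub_eq_zero.1 (norm_le_zero_iff.1 h4)) hc
    (fun p _ => hdet _ (by
      rw [ContinuousLinearMap.norm_smulRight_apply]
      exact (mul_le_mul_of_nonneg_right (hD p) (norm_nonneg _)).trans hy)) h
  refine h1.trans (mul_le_mul_right (lintegral_mono_set ?_) _)
  rintro _ ⟨p, hp, rfl⟩
  exact hTQ p hp

theorem scale_le {κ : ℝ} (hκ : 0 < κ) : ∃ C : ℝ≥0∞, C ≠ ⊤ ∧ ∀ (p : E d) (c : ℝ), κ ≤ c →
    ∀ {T Q : Set (E d)}, MeasurableSet T → (∀ y ∈ T, p + c • y ∈ Q) → ∀ h : E d → ℝ≥0∞,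
    ∫⁻ y in T, h (p + c • y) ≤ C * ∫⁻ x in Q, h x := by
  have hc0 : 0 < κ ^ d := by positivity
  have hc' : ENNReal.ofReal (κ ^ d) ≠ 0 := by
    rw [Ne, ENNReal.ofReal_eq_zero, not_le]; exact hc0
  refine ⟨(ENNReal.ofReal (κ ^ d))⁻¹, ENNReal.inv_ne_top.2 hc', ?_⟩
  intro p c hc T Q hT hTQ h
  have hcp : 0 < c := hκ.trans_le hc
  have hder : ∀ y, HasFDerivAt (fun y : E d => p + c • y)
      (c • ContinuousLinearMap.id ℝ (E d)) y := fun y =>
    ((hasFDerivAt_id y).const_smul c).const_add p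
  have h1 := cv (f := fun y => p + c • y) (f' := fun _ => c • ContinuousLinearMap.id ℝ (E d)) hT
    (fun x _ => hder x) (fun y _ y' _ he => by
      have he' : p + c • y = p + c • y' := he
      exact smul_right_injective _ hcp.ne' (add_left_cancel he')) hc0
    (fun y _ => by
      have e1 : (c • ContinuousLinearMap.id ℝ (E d)).det = c ^ d := by
        unfold ContinuousLinearMap.det
        rw [ContinuousLinearMap.coe_smul, LinearMap.det_smul]
        simp
      rw [e1, abs_of_pos (by positivity)]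
      exact pow_le_pow_left₀ hκ.le hc d) h
  refine h1.trans (mul_le_mul_right (lintegral_mono_set ?_) _)
  rintro _ ⟨y, hy, rfl⟩
  exact hTQ y hy

section

variable {ρ χ γ : E d → ℝ} {ε : ℝ}

theorem av_zero (hρ : Moll ε ρ) {p : E d} (hp : χ p = 0) : av ρ χ γ p = γ p := by
  unfold av
  rw [hp]
  simp only [zero_smul, add_zero]
  rw [integral_mul_const, hρ.int, one_mul]

theorem av_int (hρ : Moll ε ρ) (hγ : Continuous γ) (p : E d) :
    Integrable (fun y => ρ y * γ (p + χ p • y)) := by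
  have h1 : Continuous (fun y => ρ y * γ (p + χ p • y)) :=
    hρ.smooth.continuous.mul (hγ.comp (by fun_prop))
  exact h1.integrable_of_hasCompactSupport ((moll_cs hρ).mul_right)

theorem av_cont (hρ : Moll ε ρ) (hχ : Continuous χ) (hγ : Continuous γ) :
    Continuous (av ρ χ γ) := by
  unfold av
  rw [← continuousOn_univ]
  refine continuousOn_integral_of_compact_support (k := Metric.closedBall 0 ε)
    (isCompact_closedBall _ _) ?_ ?_
  · apply Continuous.continuousOn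
    have h1 : Continuous (fun z : E d × E d => ρ z.2 * γ (z.1 + χ z.1 • z.2)) :=
      (hρ.smooth.continuous.comp continuous_snd).mul (hγ.comp (by fun_prop))
    exact h1
  · intro p y _ hy
    rw [mem_closedBall_zero_iff, not_le] at hy
    rw [hρ.supp y hy.le, zero_mul]

theorem av_nonneg (hρ : Moll ε ρ) (hγ : ∀ q, 0 ≤ γ q) (p : E d) : 0 ≤ av ρ χ γ p :=
  integral_nonneg fun y => mul_nonneg (hρ.nonneg y) (hγ _)

/-- the average is at most the supremum -/
theorem av_le (hρ : Moll ε ρ) (hγ : Continuous γ) {p : E d} {m : ℝ}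
    (h : ∀ y, ‖y‖ ≤ ε → γ (p + χ p • y) ≤ m) : av ρ χ γ p ≤ m := by
  have h1 : ∫ y, ρ y * m = m := by rw [integral_mul_const, hρ.int, one_mul]
  rw [← h1]
  refine integral_mono (av_int hρ hγ p) ((moll_int hρ).mul_const m) fun y => ?_
  by_cases hy : ε ≤ ‖y‖
  · simp only [hρ.supp y hy, zero_mul]; exact le_rfl
  · exact mul_le_mul_of_nonneg_left (h y (not_le.1 hy).le) (hρ.nonneg y)

theorem ofReal_av (hρ : Moll ε ρ) (hγ : Continuous γ) (h0 : ∀ q, 0 ≤ γ q) (p : E d) :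
    ENNReal.ofReal (av ρ χ γ p) =
      ∫⁻ y in Metric.closedBall 0 ε, ENNReal.ofReal (ρ y) * ENNReal.ofReal (γ (p + χ p • y)) := by
  unfold av
  rw [ofReal_integral_eq_lintegral_ofReal (av_int hρ hγ p)
    (Eventually.of_forall fun y => mul_nonneg (hρ.nonneg y) (h0 _))]
  rw [← lintegral_indicator (Metric.isClosed_closedBall.measurableSet)]
  refine lintegral_congr fun y => ?_
  by_cases hy : y ∈ Metric.closedBall (0 : E d) ε
  · rw [indicator_of_mem hy, ENNReal.ofReal_mul (hρ.nonneg y)]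
  · rw [indicator_of_notMem hy]
    rw [mem_closedBall_zero_iff, not_le] at hy
    rw [hρ.supp y hy.le, zero_mul, ENNReal.ofReal_zero]

/-- the average is bounded by the integral where `χ` is bounded below -/
theorem av_sup (hρ : Moll ε ρ) {κ : ℝ} (hκ : 0 < κ) : ∃ C : ℝ≥0∞, C ≠ ⊤ ∧
    ∀ {χ γ : E d → ℝ}, Continuous γ → (∀ q, 0 ≤ γ q) → ∀ (p : E d) (Q : Set (E d)), κ ≤ χ p →
    (∀ y, ‖y‖ ≤ ε → p + χ p • y ∈ Q) →
    ENNReal.ofReal (av ρ χ γ p) ≤ C * ∫⁻ x in Q, ENNReal.ofReal (γ x) := by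
  obtain ⟨C, hC, h1⟩ := scale_le (d := d) hκ
  obtain ⟨M, hM⟩ := hρ.smooth.continuous.bounded_above_of_compact_support (moll_cs hρ)
  refine ⟨ENNReal.ofReal M * C, ENNReal.mul_ne_top ENNReal.ofReal_ne_top hC, ?_⟩
  intro χ γ hγ h0 p Q hp hQ
  rw [ofReal_av hρ hγ h0]
  calc ∫⁻ y in Metric.closedBall 0 ε, ENNReal.ofReal (ρ y) * ENNReal.ofReal (γ (p + χ p • y)) ≤
        ∫⁻ y in Metric.closedBall 0 ε, ENNReal.ofReal M * ENNReal.ofReal (γ (p + χ p • y)) := by
          refine lintegral_mono fun y => mul_le_mul_left (ENNReal.ofReal_le_ofReal ?_) _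
          exact (le_abs_self _).trans (hM y)
    _ = ENNReal.ofReal M * ∫⁻ y in Metric.closedBall 0 ε, ENNReal.ofReal (γ (p + χ p • y)) :=
          lintegral_const_mul' _ _ ENNReal.ofReal_ne_top
    _ ≤ ENNReal.ofReal M * (C * ∫⁻ x in Q, ENNReal.ofReal (γ x)) :=
          mul_le_mul_right (h1 p (χ p) hp Metric.isClosed_closedBall.measurableSet
            (fun y hy => hQ y (mem_closedBall_zero_iff.1 hy)) (fun x => ENNReal.ofReal (γ x))) _
    _ = _ := by rw [mul_assoc]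

/-- the integral of the average -/
theorem av_lint (hρ : Moll ε ρ) : ∃ C : ℝ≥0∞, C ≠ ⊤ ∧ ∀ {χ γ : E d → ℝ}, ContDiff ℝ ∞ χ →
    ∀ {D : ℝ}, (∀ p, ‖fderiv ℝ χ p‖ ≤ D) → D * ε ≤ 1 / 2 → Continuous γ → (∀ q, 0 ≤ γ q) →
    ∀ {T Q : Set (E d)}, MeasurableSet T → (∀ p ∈ T, ∀ y, ‖y‖ ≤ ε → p + χ p • y ∈ Q) →
    ∫⁻ p in T, ENNReal.ofReal (av ρ χ γ p) ≤ C * ∫⁻ x in Q, ENNReal.ofReal (γ x) := by
  obtain ⟨C, hC, h1⟩ := shift_le (d := d)
  refine ⟨C, hC, ?_⟩
  intro χ γ hχ D hD hDε hγ h0 T Q hT hQ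
  simp_rw [ofReal_av hρ hγ h0]
  have hD0 : 0 ≤ D := (norm_nonneg _).trans (hD 0)
  have hmeas : Measurable (fun z : E d × E d => ENNReal.ofReal (ρ z.2) *
      ENNReal.ofReal (γ (z.1 + χ z.1 • z.2))) := by
    have hc := hχ.continuous
    have hr := hρ.smooth.continuous
    exact ((hr.comp continuous_snd).measurable.ennreal_ofReal).mul
      ((hγ.comp (by fun_prop : Continuous fun z : E d × E d =>
        z.1 + χ z.1 • z.2)).measurable.ennreal_ofReal)
  rw [lintegral_lintegral_swap hmeas.aemeasurable]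
  calc ∫⁻ y in Metric.closedBall 0 ε, ∫⁻ p in T, ENNReal.ofReal (ρ y) *
          ENNReal.ofReal (γ (p + χ p • y)) ≤
        ∫⁻ y in Metric.closedBall 0 ε, ENNReal.ofReal (ρ y) *
          (C * ∫⁻ x in Q, ENNReal.ofReal (γ x)) := by
          refine setLIntegral_mono' Metric.isClosed_closedBall.measurableSet fun y hy => ?_
          rw [mem_closedBall_zero_iff] at hy
          rw [lintegral_const_mul' _ _ ENNReal.ofReal_ne_top]
          refine mul_le_mul_right (h1 hχ hD y ?_ hT (fun p hp => hQ p hp y hy)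
            (fun x => ENNReal.ofReal (γ x))) _
          exact (mul_le_mul_of_nonneg_left hy hD0).trans hDε
    _ = (∫⁻ y in Metric.closedBall 0 ε, ENNReal.ofReal (ρ y)) *
          (C * ∫⁻ x in Q, ENNReal.ofReal (γ x)) := by
          rw [lintegral_mul_const]
          exact hρ.smooth.continuous.measurable.ennreal_ofReal
    _ ≤ 1 * (C * ∫⁻ x in Q, ENNReal.ofReal (γ x)) := by
          refine mul_le_mul_left ?_ _
          refine (setLIntegral_le_lintegral _ _).trans ?_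
          rw [← ofReal_integral_eq_lintegral_ofReal (moll_int hρ)
            (Eventually.of_forall hρ.nonneg), hρ.int, ENNReal.ofReal_one]
    _ = _ := one_mul _

end

end Pool.Agent.L7h49.LT
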