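import Pool.Agent.L7h49.LT.Fin

/-!
# Uniformly bounded forms which tame outside sets of small volume
-/

set_option autoImplicit false

open Set Filter Topology MeasureTheory
open scoped Manifold ContDiff ENNReal

noncomputable section

namespace Pool.Agent.L7h49.LT

open Pool.Agent.Y501.SY
open Pool.Agent.N13.TL (q q_nonneg FC Reached Ctrl Locus Fib RS q_add q_smul q_J q_zero)
open Pool.Agent.Y455.SY (A B AB BA Q_eq Q_cont Q_smul)

variable {d : ℕ} {X : Type} [TopologicalSpace X] [ChartedSpace (E d) X]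

theorem q_scale (σ : Form d X 2) (J : End d X) (x : X) (c : ℝ) (v : TangentSpace (𝓡 d) x) :
    q σ J x (c • v) = c ^ 2 * q σ J x v := by
  have h1 : (![c • v, J x (c • v)] : Fin 2 → TangentSpace (𝓡 d) x) =
      fun i => c • (![v, J x v] : Fin 2 → TangentSpace (𝓡 d) x) i := by
    funext i
    fin_cases i
    · rfl
    · exact map_smul (J x) c v
  show σ x ![c • v, J x (c • v)] = _
  rw [h1]
  have h2 := (σ x).map_smul_univ (fun _ => c) (![v, J x v] : Fin 2 → TangentSpace (𝓡 d) x)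
  rw [h2]
  simp [sq]

theorem two_scale (σ : Form d X 2) (x : X) (a b : ℝ) (v w : TangentSpace (𝓡 d) x) :
    σ x ![a • v, b • w] = a * b * σ x ![v, w] := by
  have h1 : (![a • v, b • w] : Fin 2 → TangentSpace (𝓡 d) x) =
      fun i => (![a, b] : Fin 2 → ℝ) i • (![v, w] : Fin 2 → TangentSpace (𝓡 d) x) i := by
    funext i
    fin_cases i <;> rfl
  rw [h1]
  have h2 := (σ x).map_smul_univ (![a, b] : Fin 2 → ℝ)
    (![v, w] : Fin 2 → TangentSpace (𝓡 d) x)
  rw [h2]
  simp [Fin.prod_univ_two]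

/-- from unit vectors to all vectors -/
theorem con_of_unit {J : End d X} {τ : Form d X 2} (hτt : ∀ x, TamesAt τ J x) {σ : Form d X 2}
    {b g : ℝ} {x : X}
    (h : ∀ u w v : TangentSpace (𝓡 d) x, q τ J x u = 1 → q τ J x w = 1 → q τ J x v = 1 →
      b * |σ x ![u, w]| ≤ q σ J x v + g) (u w v : TangentSpace (𝓡 d) x) :
    b * |σ x ![u, w]| * q τ J x v ≤
      (q σ J x v + g * q τ J x v) * (√(q τ J x u) * √(q τ J x w)) := by
  by_cases hu : u = 0
  · have h1 : σ x ![u, w] = 0 := (σ x).map_coord_zero 0 (by rw [hu]; rfl)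
    rw [h1, hu, q_zero]
    simp
  by_cases hw : w = 0
  · have h1 : σ x ![u, w] = 0 := (σ x).map_coord_zero 1 (by rw [hw]; rfl)
    rw [h1, hw, q_zero]
    simp
  by_cases hv : v = 0
  · rw [hv, q_zero, q_zero]
    simp
  have pu := hτt x u hu
  have pw := hτt x w hw
  have pv := hτt x v hv
  change 0 < q τ J x u at pu
  change 0 < q τ J x w at pw
  change 0 < q τ J x v at pv
  have su := Real.sqrt_pos.2 pu
  have sw := Real.sqrt_pos.2 pw
  have sv := Real.sqrt_pos.2 pv
  have nrm : ∀ z : TangentSpace (𝓡 d) x, 0 < q τ J x z →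
      q τ J x ((√(q τ J x z))⁻¹ • z) = 1 := by
    intro z hz
    rw [q_scale, inv_pow, Real.sq_sqrt hz.le]
    exact inv_mul_cancel₀ hz.ne'
  have key := h _ _ _ (nrm u pu) (nrm w pw) (nrm v pv)
  rw [q_scale, two_scale, inv_pow, Real.sq_sqrt pv.le, abs_mul, abs_of_pos (by positivity)] at key
  have h3 := mul_le_mul_of_nonneg_right key
    (show 0 ≤ q τ J x v * (√(q τ J x u) * √(q τ J x w)) by positivity)
  have e1 : b * ((√(q τ J x u))⁻¹ * (√(q τ J x w))⁻¹ * |σ x ![u, w]|) *
      (q τ J x v * (√(q τ J x u) * √(q τ J x w))) = b * |σ x ![u, w]| * q τ J x v := by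
    field_simp
  have e2 : ((q τ J x v)⁻¹ * q σ J x v + g) * (q τ J x v * (√(q τ J x u) * √(q τ J x w))) =
      (q σ J x v + g * q τ J x v) * (√(q τ J x u) * √(q τ J x w)) := by
    field_simp
  rw [e1, e2] at h3
  exact h3

variable [IsManifold (𝓡 d) ∞ X]

/-- the set of points where a form is not larger than `c τ` -/
theorem bad_closed {J : End d X} (hJ : IsAlmostComplex J) {σ τ : Form d X 2}
    (hσ : IsSmooth σ) (hτ : IsSmooth τ) (c : ℝ) :
    IsClosed {x : X | ∃ v : TangentSpace (𝓡 d) x, v ≠ 0 ∧ q σ J x v ≤ c * q τ J x v} := by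
  have h1 : {x : X | ∃ v : TangentSpace (𝓡 d) x, v ≠ 0 ∧ q σ J x v ≤ c * q τ J x v}ᶜ =
      {x | TamesAt (σ + (-c) • τ) J x} := by
    ext x
    simp only [mem_compl_iff, mem_ofPred_eq, not_exists, not_and, not_le]
    refine forall_congr' fun v => forall_congr' fun _ => ?_
    show c * q τ J x v < q σ J x v ↔ 0 < q (σ + (-c) • τ) J x v
    rw [q_add, q_smul]
    constructor <;> intro h <;> linarith
  rw [← isOpen_compl_iff, h1, isOpen_iff_eventually]
  intro x hx
  exact TamesAt.nhds Pool.Agent.Y455.SY.t_PERT hJ (hσ.add (hτ.smul (-c))) hx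

omit [IsManifold (𝓡 d) ∞ X] in
theorem q_transport (σ : Form d X 2) (J : End d X) {x y : X} (h : y = x) (v : E d) :
    q σ J y v = q σ J x v := by
  subst h
  rfl

theorem bad_nhds {J : End d X} (hJ : IsAlmostComplex J) {ρ : Form d X 2}
    (hρ : IsSmooth ρ) (x : X) (v : E d) (hv : q ρ J x v < 0) :
    ∀ᶠ y in 𝓝 x, ∃ w : TangentSpace (𝓡 d) y, q ρ J y w < 0 := by
  have hx := mem_chart_source (E d) x
  have hxt := mem_chart_target (E d) x
  have hneg : Pool.Agent.Y455.SY.Q ρ J x (chartAt (E d) x x) (B x (chartAt (E d) x x) v) < 0 := by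
    rw [Q_eq _ J x hxt, AB x hxt]
    exact lt_of_eq_of_lt (q_transport ρ J ((chartAt (E d) x).left_inv hx) v) hv
  obtain ⟨v₁, hv₁⟩ : ∃ v₁ : E d, v₁ = B x (chartAt (E d) x x) v := ⟨_, rfl⟩
  rw [← hv₁] at hneg
  have hc : ContinuousAt (fun z : E d × E d => Pool.Agent.Y455.SY.Q ρ J x z.1 z.2)
      (chartAt (E d) x x, v₁) := Q_cont hρ hJ x hxt
  have h1 : ContinuousAt (fun y : X => (chartAt (E d) x y, v₁)) x :=
    ((chartAt (E d) x).continuousAt hx).prodMk continuousAt_const
  have hc2 : ContinuousAt (fun y : X => Pool.Agent.Y455.SY.Q ρ J x (chartAt (E d) x y) v₁) x :=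
    ContinuousAt.comp (f := fun y : X => (chartAt (E d) x y, v₁)) hc h1
  filter_upwards [hc2.eventually_lt_const hneg, (chartAt (E d) x).open_source.mem_nhds hx]
    with y hy hys
  refine ⟨A x (chartAt (E d) x y) v₁, ?_⟩
  rw [Q_eq _ J x ((chartAt (E d) x).map_source hys)] at hy
  exact lt_of_eq_of_lt
    (q_transport ρ J ((chartAt (E d) x).left_inv hys) (A x (chartAt (E d) x y) v₁)).symm hy

/-- the set of points where a form is smaller than `c τ` in some direction -/
theorem bad_open {J : End d X} (hJ : IsAlmostComplex J) {σ τ : Form d X 2}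
    (hσ : IsSmooth σ) (hτ : IsSmooth τ) (c : ℝ) :
    IsOpen {x : X | ∃ v : TangentSpace (𝓡 d) x, q σ J x v < c * q τ J x v} := by
  rw [isOpen_iff_eventually]
  rintro x ⟨v, hv⟩
  have hρ : IsSmooth (σ + (-c) • τ) := hσ.add (hτ.smul (-c))
  have h1 : q (σ + (-c) • τ) J x v < 0 := by
    rw [q_add, q_smul]
    linarith
  filter_upwards [bad_nhds hJ hρ x v h1] with y hy
  obtain ⟨w, hw⟩ := hy
  rw [q_add, q_smul] at hw
  exact ⟨w, by linarith⟩

/-- Uniformly bounded forms which tame outside sets of small volume. -/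
theorem AP.of_bdd [CompactSpace X] [T2Space X] {J : End d X} (hJ : IsAlmostComplex J)
    {τ : Form d X 2} (hτ : IsSmooth τ) (hτt : ∀ x, TamesAt τ J x) {𝒞 : Set (Form d X 2)}
    (hC : FC 𝒞) {σ : ℕ → Form d X 2} (hmem : ∀ k, σ k ∈ 𝒞) {C c : ℝ} (hc : 0 < c)
    (hbd : ∀ (k : ℕ) (x : X) (u w : TangentSpace (𝓡 d) x), q τ J x u = 1 → q τ J x w = 1 →
      |σ k x ![u, w]| ≤ C)
    (hvol : ∀ (x₁ : X) (K : Set (E d)), IsCompact K → K ⊆ (chartAt (E d) x₁).target →
      Tendsto (fun k => volume {p | p ∈ K ∧ ∃ v : TangentSpace (𝓡 d) ((chartAt (E d) x₁).symm p),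
        q (σ k) J ((chartAt (E d) x₁).symm p) v < c * q τ J ((chartAt (E d) x₁).symm p) v})
        atTop (𝓝 0)) :
    ∃ h : ℕ → X → ℝ, AP 𝒞 J τ 1 (2 * |C|) σ h ∧ ∀ (k : ℕ) (y : X) (v : TangentSpace (𝓡 d) y),
      (c / 2 - h k y) * q τ J y v ≤ q (σ k) J y v := by
  have hexi : ∀ k, ∃ g : C(X, ℝ), EqOn g 0
      {x : X | ∃ v : TangentSpace (𝓡 d) x, q (σ k) J x v < c * q τ J x v}ᶜ ∧
      EqOn g 1 {x : X | ∃ v : TangentSpace (𝓡 d) x, v ≠ 0 ∧ q (σ k) J x v ≤ c / 2 * q τ J x v} ∧
      ∀ x, g x ∈ Icc (0 : ℝ) 1 := by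
    intro k
    have hs := hC.smooth _ (hmem k)
    refine exists_continuous_zero_one_of_isClosed (bad_open hJ hs hτ c).isClosed_compl
      (bad_closed hJ hs hτ (c / 2)) ?_
    rw [Set.disjoint_left]
    rintro x hx ⟨v, hv, hv2⟩
    apply hx
    refine ⟨v, ?_⟩
    have h1 : 0 < q τ J x v := hτt x v hv
    have h2 : 0 < c * q τ J x v := by positivity
    linarith
  choose g hg0 hg1 hg using hexi
  -- bounds
  have hb1 : ∀ (k : ℕ) (x : X) (v : TangentSpace (𝓡 d) x),
      -(|C|) * q τ J x v ≤ q (σ k) J x v := by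
    intro k x v
    by_cases hv : v = 0
    · rw [hv, q_zero, q_zero]
      simp
    have pv : 0 < q τ J x v := hτt x v hv
    have sv := Real.sqrt_pos.2 pv
    have n1 : q τ J x ((√(q τ J x v))⁻¹ • v) = 1 := by
      rw [q_scale, inv_pow, Real.sq_sqrt pv.le]
      exact inv_mul_cancel₀ pv.ne'
    have n2 : q τ J x (J x ((√(q τ J x v))⁻¹ • v)) = 1 := by
      rw [q_J hJ, n1]
    have h1 := hbd k x _ _ n1 n2
    have h2 : |q (σ k) J x ((√(q τ J x v))⁻¹ • v)| ≤ C := h1
    rw [q_scale, inv_pow, Real.sq_sqrt pv.le] at h2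
    have h3 := (abs_le.1 (h2.trans (le_abs_self C))).1
    have h4 := mul_le_mul_of_nonneg_right h3 pv.le
    have h5 : (q τ J x v)⁻¹ * q (σ k) J x v * q τ J x v = q (σ k) J x v := by
      field_simp
    rw [h5] at h4
    exact h4
  have hlow : ∀ (k : ℕ) (y : X) (v : TangentSpace (𝓡 d) y),
      (c / 2 - (|C| + c) * g k y) * q τ J y v ≤ q (σ k) J y v := by
    intro k y v
    have t0 := q_nonneg (hτt y) v
    by_cases hy : y ∈ {x : X | ∃ v : TangentSpace (𝓡 d) x, v ≠ 0 ∧
        q (σ k) J x v ≤ c / 2 * q τ J x v}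
    · have e1 : g k y = 1 := hg1 k hy
      rw [e1]
      have e2 := hb1 k y v
      have e3 : 0 ≤ c / 2 * q τ J y v := by positivity
      linarith
    · by_cases hv : v = 0
      · rw [hv, q_zero, q_zero]
        simp
      have e1 : c / 2 * q τ J y v < q (σ k) J y v := by
        by_contra hcon
        exact hy ⟨v, hv, not_lt.1 hcon⟩
      have e2 : 0 ≤ (|C| + c) * g k y * q τ J y v :=
        mul_nonneg (mul_nonneg (by positivity) (hg k y).1) t0
      linarith
  refine ⟨fun k y => (|C| + c) * g k y, ⟨one_pos, by positivity, hmem,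
    fun k => continuous_const.mul (g k).continuous,
    fun k x => mul_nonneg (by positivity) (hg k x).1, ?_, fun k x v => ?_, fun k x u w v => ?_⟩,
    hlow⟩
  · -- the integrals
    intro x₁ K hK hK1
    have h1 := ENNReal.Tendsto.const_mul (a := ENNReal.ofReal (|C| + c)) (hvol x₁ K hK hK1)
      (Or.inr ENNReal.ofReal_ne_top)
    rw [mul_zero] at h1
    refine tendsto_of_tendsto_of_tendsto_of_le_of_le tendsto_const_nhds h1
      (fun k => bot_le) fun k => ?_
    have hop : IsOpen {x : X | ∃ v : TangentSpace (𝓡 d) x, q (σ k) J x v < c * q τ J x v} :=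
      bad_open hJ (hC.smooth _ (hmem k)) hτ c
    have hpre : MeasurableSet ((chartAt (E d) x₁).target ∩ (chartAt (E d) x₁).symm ⁻¹'
        {x : X | ∃ v : TangentSpace (𝓡 d) x, q (σ k) J x v < c * q τ J x v}) :=
      ((chartAt (E d) x₁).isOpen_inter_preimage_symm hop).measurableSet
    calc ∫⁻ p in K, ENNReal.ofReal ((|C| + c) * g k ((chartAt (E d) x₁).symm p))
        ≤ ∫⁻ p in K, ((chartAt (E d) x₁).target ∩ (chartAt (E d) x₁).symm ⁻¹'
            {x : X | ∃ v : TangentSpace (𝓡 d) x, q (σ k) J x v < c * q τ J x v}).indicator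
            (fun _ => ENNReal.ofReal (|C| + c)) p := by
          refine setLIntegral_mono' hK.measurableSet fun p hp => ?_
          by_cases hp2 : p ∈ (chartAt (E d) x₁).target ∩ (chartAt (E d) x₁).symm ⁻¹'
              {x : X | ∃ v : TangentSpace (𝓡 d) x, q (σ k) J x v < c * q τ J x v}
          · rw [indicator_of_mem hp2]
            exact ENNReal.ofReal_le_ofReal
              (mul_le_of_le_one_right (by positivity) (hg k _).2)
          · rw [indicator_of_notMem hp2]
            have e1 : g k ((chartAt (E d) x₁).symm p) = 0 :=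
              hg0 k (fun h => hp2 ⟨hK1 hp, h⟩)
            rw [e1, mul_zero, ENNReal.ofReal_zero]
      _ = ENNReal.ofReal (|C| + c) * volume (((chartAt (E d) x₁).target ∩
            (chartAt (E d) x₁).symm ⁻¹' {x : X | ∃ v : TangentSpace (𝓡 d) x,
              q (σ k) J x v < c * q τ J x v}) ∩ K) := by
          rw [lintegral_indicator hpre, Measure.restrict_restrict hpre, setLIntegral_const]
      _ ≤ _ := by
          refine mul_le_mul_right (measure_mono ?_) _
          rintro p ⟨⟨hp1, hp2⟩, hp3⟩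
          exact ⟨hp3, hp2⟩
  · have e1 := hlow k x v
    have e2 : 0 ≤ c / 2 * q τ J x v := mul_nonneg (by positivity) (q_nonneg (hτt x) v)
    linarith
  · refine con_of_unit hτt (fun u w v hu hw hv => ?_) u w v
    have e1 := hbd k x u w hu hw
    have e2 := hb1 k x v
    have e3 : 0 ≤ (|C| + c) * g k x := mul_nonneg (by positivity) (hg k x).1
    rw [hv] at e2
    have e4 := le_abs_self C
    linarith

end Pool.Agent.L7h49.LT
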