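import Pool.Agent.L7h49.LT.Av

/-!
# Pointwise estimates for averages of two-forms
-/

set_option autoImplicit false

open Set Filter Topology MeasureTheory
open scoped Manifold ContDiff ENNReal

noncomputable section

namespace Pool.Agent.L7h49.LT

open Pool.Agent.Y501.SY
open Pool.Agent.Y515.SY (Al LL LL_apply moll_cs moll_int JJ two_bound lR_apply comp_cont comp_pair
  pair_eta expand2)

variable {d : ℕ}

/-- continuous families of nonnegative functions, homogeneous of degree two -/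
structure QH (Ψ : E d × E d → ℝ) (V : Set (E d)) : Prop where
  cont : ContinuousOn Ψ (V ×ˢ univ)
  hom : ∀ p ∈ V, ∀ (v : E d) (c : ℝ), Ψ (p, c • v) = c ^ 2 * Ψ (p, v)
  nonneg : ∀ p ∈ V, ∀ v, 0 ≤ Ψ (p, v)

theorem QH.contAt {Ψ : E d × E d → ℝ} {V : Set (E d)} (h : QH Ψ V) (hV : IsOpen V) {p : E d}
    (hp : p ∈ V) (v : E d) : ContinuousAt Ψ (p, v) :=
  h.cont.continuousAt ((hV.prod isOpen_univ).mem_nhds ⟨hp, mem_univ v⟩)

theorem QH.zero {Ψ : E d × E d → ℝ} {V : Set (E d)} (h : QH Ψ V) {p : E d} (hp : p ∈ V) :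
    Ψ (p, 0) = 0 := by
  have := h.hom p hp 0 0
  simpa using this

theorem uc {V T Q : Set (E d)} (hV : IsOpen V) (hT : IsCompact T) (hTV : T ⊆ V)
    (hQ : ∀ p ∈ T, Q ∈ 𝓝 p) {χ : E d → ℝ} (hχ : ContDiff ℝ ∞ χ)
    {Js : E d → (E d →L[ℝ] E d)} (hJ : ContinuousOn Js V) {Qf ψ : E d × E d → ℝ}
    (hQf : QH Qf V) (hpos : ∀ p ∈ V, ∀ v, v ≠ 0 → 0 < Qf (p, v)) (hψ : QH ψ V) {η : ℝ}
    (hη : 0 < η) : ∃ ε₀ : ℝ, 0 < ε₀ ∧ ∀ y, ‖y‖ ≤ ε₀ → ∀ p ∈ T, p + χ p • y ∈ Q ∩ V ∧ ∀ v : E d,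
      ‖LL (fderiv ℝ χ p) y v‖ ≤ 2 * ‖v‖ ∧
      ‖LL (fderiv ℝ χ p) y (Js p v) - Js (p + χ p • y) (LL (fderiv ℝ χ p) y v)‖ ≤ η * ‖v‖ ∧
      |Qf (p + χ p • y, LL (fderiv ℝ χ p) y v) - Qf (p, v)| ≤ η * Qf (p, v) ∧
      |ψ (p + χ p • y, LL (fderiv ℝ χ p) y v) - ψ (p, v)| ≤ η * Qf (p, v) := by
  have hχc := hχ.continuous
  have hχd : Continuous (fderiv ℝ χ) := hχ.continuous_fderiv (by simp)
  -- the first part
  have h1 : ∀ᶠ y in 𝓝 (0 : E d), ∀ p ∈ T, p + χ p • y ∈ Q ∩ V := by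
    refine hT.eventually_forall_of_forall_eventually (P := fun y p => p + χ p • y ∈ Q ∩ V)
      fun p hp => ?_
    have h2 : ContinuousAt (fun z : E d × E d => z.2 + χ z.2 • z.1) (0, p) := by fun_prop
    have h3 : (fun z : E d × E d => z.2 + χ z.2 • z.1) (0, p) = p := by simp
    have h4 : Q ∩ V ∈ 𝓝 ((fun z : E d × E d => z.2 + χ z.2 • z.1) (0, p)) := by
      rw [h3]
      exact inter_mem (hQ p hp) (hV.mem_nhds (hTV hp))
    exact h2.eventually h4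
  have h2 : ∀ᶠ y in 𝓝 (0 : E d), ∀ z ∈ T ×ˢ Metric.sphere (0 : E d) 1,
      ‖LL (fderiv ℝ χ z.1) y z.2‖ < 2 ∧
      ‖LL (fderiv ℝ χ z.1) y (Js z.1 z.2) - Js (z.1 + χ z.1 • y) (LL (fderiv ℝ χ z.1) y z.2)‖ <
        η ∧
      |Qf (z.1 + χ z.1 • y, LL (fderiv ℝ χ z.1) y z.2) - Qf (z.1, z.2)| < η * Qf (z.1, z.2) ∧
      |ψ (z.1 + χ z.1 • y, LL (fderiv ℝ χ z.1) y z.2) - ψ (z.1, z.2)| < η * Qf (z.1, z.2) := by
    refine (hT.prod (isCompact_sphere 0 1)).eventually_forall_of_forall_eventually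
      (P := fun y z => ‖LL (fderiv ℝ χ z.1) y z.2‖ < 2 ∧
      ‖LL (fderiv ℝ χ z.1) y (Js z.1 z.2) - Js (z.1 + χ z.1 • y) (LL (fderiv ℝ χ z.1) y z.2)‖ <
        η ∧
      |Qf (z.1 + χ z.1 • y, LL (fderiv ℝ χ z.1) y z.2) - Qf (z.1, z.2)| < η * Qf (z.1, z.2) ∧
      |ψ (z.1 + χ z.1 • y, LL (fderiv ℝ χ z.1) y z.2) - ψ (z.1, z.2)| < η * Qf (z.1, z.2)) ?_
    rintro ⟨p, u⟩ ⟨hp, hu⟩
    have hu1 : ‖u‖ = 1 := by simpa using hu
    have hpV : p ∈ V := hTV hp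
    have hu0 : u ≠ 0 := by
      rintro rfl
      simp at hu1
    -- the moved point and the moved vector
    have cq : ContinuousAt (fun z : E d × (E d × E d) => z.2.1 + χ z.2.1 • z.1) (0, (p, u)) := by
      fun_prop
    have cu : Continuous (fun z : E d × (E d × E d) => LL (fderiv ℝ χ z.2.1) z.1 z.2.2) := by
      simp only [LL_apply]
      have : Continuous (fun z : E d × (E d × E d) => (fderiv ℝ χ z.2.1) z.2.2) :=
        (hχd.comp (continuous_fst.comp continuous_snd)).clm_apply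
          (continuous_snd.comp continuous_snd)
      exact (continuous_snd.comp continuous_snd).add (this.smul continuous_fst)
    have eq0 : p + χ p • (0 : E d) = p := by simp
    have eu0 : ∀ w : E d, LL (fderiv ℝ χ p) (0 : E d) w = w := fun w => by
      rw [LL_apply]; simp
    have cJp : ContinuousAt (fun z : E d × (E d × E d) => Js z.2.1 z.2.2) (0, (p, u)) := by
      have h5 : ContinuousAt (fun z : E d × (E d × E d) => Js z.2.1) (0, (p, u)) := by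
        have : ContinuousAt Js p := hJ.continuousAt (hV.mem_nhds hpV)
        exact ContinuousAt.comp (f := fun z : E d × (E d × E d) => z.2.1) this
          (continuous_fst.comp continuous_snd).continuousAt
      exact h5.clm_apply (continuous_snd.comp continuous_snd).continuousAt
    have cJq : ContinuousAt (fun z : E d × (E d × E d) =>
        Js (z.2.1 + χ z.2.1 • z.1) (LL (fderiv ℝ χ z.2.1) z.1 z.2.2)) (0, (p, u)) := by
      have h5 : ContinuousAt (fun z : E d × (E d × E d) => Js (z.2.1 + χ z.2.1 • z.1))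
          (0, (p, u)) := by
        have : ContinuousAt Js ((fun z : E d × (E d × E d) => z.2.1 + χ z.2.1 • z.1)
            (0, (p, u))) := by
          show ContinuousAt Js (p + χ p • (0 : E d))
          rw [eq0]
          exact hJ.continuousAt (hV.mem_nhds hpV)
        exact ContinuousAt.comp (f := fun z : E d × (E d × E d) => z.2.1 + χ z.2.1 • z.1) this cq
      exact h5.clm_apply cu.continuousAt
    have cJp' : ContinuousAt (fun z : E d × (E d × E d) =>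
        LL (fderiv ℝ χ z.2.1) z.1 (Js z.2.1 z.2.2)) (0, (p, u)) := by
      simp only [LL_apply]
      have h6 : ContinuousAt (fun z : E d × (E d × E d) => (fderiv ℝ χ z.2.1) (Js z.2.1 z.2.2))
          (0, (p, u)) :=
        (hχd.comp (continuous_fst.comp continuous_snd)).continuousAt.clm_apply cJp
      exact cJp.add (h6.smul continuousAt_fst)
    have cΨ : ∀ {Ψ : E d × E d → ℝ}, QH Ψ V → ContinuousAt (fun z : E d × (E d × E d) =>
        Ψ (z.2.1 + χ z.2.1 • z.1, LL (fderiv ℝ χ z.2.1) z.1 z.2.2)) (0, (p, u)) := by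
      intro Ψ hΨ
      have h7 : ContinuousAt Ψ ((fun z : E d × (E d × E d) =>
          (z.2.1 + χ z.2.1 • z.1, LL (fderiv ℝ χ z.2.1) z.1 z.2.2)) (0, (p, u))) := by
        show ContinuousAt Ψ (p + χ p • (0 : E d), LL (fderiv ℝ χ p) (0 : E d) u)
        rw [eq0, eu0]
        exact hΨ.contAt hV hpV u
      exact ContinuousAt.comp (f := fun z : E d × (E d × E d) =>
        (z.2.1 + χ z.2.1 • z.1, LL (fderiv ℝ χ z.2.1) z.1 z.2.2)) h7 (cq.prodMk cu.continuousAt)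
    have cΨ' : ∀ {Ψ : E d × E d → ℝ}, QH Ψ V → ContinuousAt (fun z : E d × (E d × E d) =>
        Ψ (z.2.1, z.2.2)) (0, (p, u)) := by
      intro Ψ hΨ
      exact ContinuousAt.comp (f := fun z : E d × (E d × E d) => (z.2.1, z.2.2))
        (hΨ.contAt hV hpV u) (by fun_prop)
    have cη : ContinuousAt (fun z : E d × (E d × E d) => η * Qf (z.2.1, z.2.2)) (0, (p, u)) :=
      continuousAt_const.mul (cΨ' hQf)
    have hQp : 0 < η * Qf (p, u) := mul_pos hη (hpos p hpV u hu0)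
    refine ((cu.norm.continuousAt (x := (0, (p, u)))).eventually_lt (continuousAt_const (y := 2))
      ?_).and (((cJp'.sub cJq).norm.eventually_lt (continuousAt_const (y := η)) ?_).and
      ((((cΨ hQf).sub (cΨ' hQf)).abs.eventually_lt cη ?_).and
      (((cΨ hψ).sub (cΨ' hψ)).abs.eventually_lt cη ?_)))
    · show ‖LL (fderiv ℝ χ p) (0 : E d) u‖ < 2
      rw [eu0, hu1]
      norm_num
    · show ‖LL (fderiv ℝ χ p) (0 : E d) (Js p u) -
        Js (p + χ p • (0 : E d)) (LL (fderiv ℝ χ p) (0 : E d) u)‖ < η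
      rw [eq0, eu0, eu0, sub_self, norm_zero]
      exact hη
    · show |Qf (p + χ p • (0 : E d), LL (fderiv ℝ χ p) (0 : E d) u) - Qf (p, u)| < η * Qf (p, u)
      rw [eq0, eu0, sub_self, abs_zero]
      exact hQp
    · show |ψ (p + χ p • (0 : E d), LL (fderiv ℝ χ p) (0 : E d) u) - ψ (p, u)| < η * Qf (p, u)
      rw [eq0, eu0, sub_self, abs_zero]
      exact hQp
  obtain ⟨ε₀, hε₀, h3⟩ := Metric.nhds_basis_closedBall.mem_iff.1 (h1.and h2)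
  refine ⟨ε₀, hε₀, fun y hy p hp => ?_⟩
  obtain ⟨h4, h5⟩ := h3 (mem_closedBall_zero_iff.2 hy)
  refine ⟨h4 p hp, fun v => ?_⟩
  have hpV := hTV hp
  have hqV : p + χ p • y ∈ V := (h4 p hp).2
  by_cases hv : v = 0
  · rw [hv]
    simp only [map_zero, norm_zero, sub_zero, mul_zero, le_refl, true_and]
    rw [hQf.zero hpV, hQf.zero hqV, hψ.zero hpV, hψ.zero hqV]
    simp
  have hn : 0 < ‖v‖ := norm_pos_iff.2 hv
  obtain ⟨u, hu⟩ : ∃ u : E d, u = ‖v‖⁻¹ • v := ⟨_, rfl⟩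
  have hvu : v = ‖v‖ • u := by rw [hu, smul_smul, mul_inv_cancel₀ hn.ne', one_smul]
  have hu1 : ‖u‖ = 1 := by
    rw [hu, norm_smul, norm_inv, norm_norm, inv_mul_cancel₀ hn.ne']
  obtain ⟨a1, a2, a3, a4⟩ := h5 (p, u) ⟨hp, by simp [hu1]⟩
  obtain ⟨r, hr⟩ : ∃ r : ℝ, r = ‖v‖ := ⟨_, rfl⟩
  rw [← hr] at hvu hn
  have e1 : LL (fderiv ℝ χ p) y v = r • LL (fderiv ℝ χ p) y u := by rw [hvu, map_smul]
  have e2 : Js p v = r • Js p u := by rw [hvu, map_smul]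
  have e3 : Qf (p, v) = r ^ 2 * Qf (p, u) := by rw [hvu, hQf.hom p hpV]
  have e4 : ψ (p, v) = r ^ 2 * ψ (p, u) := by rw [hvu, hψ.hom p hpV]
  rw [← hr, e1, e2, map_smul, map_smul, ← smul_sub, norm_smul, norm_smul, e3, e4,
    hQf.hom _ hqV, hψ.hom _ hqV, Real.norm_of_nonneg hn.le]
  simp only at a1 a2 a3 a4
  have hr2 : 0 ≤ r ^ 2 := sq_nonneg r
  refine ⟨?_, ?_, ?_, ?_⟩
  · nlinarith
  · nlinarith
  · rw [← mul_sub, abs_mul, abs_of_nonneg hr2]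
    calc _ ≤ r ^ 2 * (η * Qf (p, u)) := mul_le_mul_of_nonneg_left a3.le hr2
      _ = _ := by ring
  · rw [← mul_sub, abs_mul, abs_of_nonneg hr2]
    calc _ ≤ r ^ 2 * (η * Qf (p, u)) := mul_le_mul_of_nonneg_left a4.le hr2
      _ = _ := by ring

/-- bounds on a compact set -/
theorem qbounds {V Q : Set (E d)} (hQ : IsCompact Q) (hQV : Q ⊆ V) {Qf : E d × E d → ℝ}
    (hQf : QH Qf V) (hpos : ∀ p ∈ V, ∀ v, v ≠ 0 → 0 < Qf (p, v)) :
    ∃ c₀ C₀ : ℝ, 0 < c₀ ∧ 0 < C₀ ∧ ∀ p ∈ Q, ∀ v, c₀ * ‖v‖ ^ 2 ≤ Qf (p, v) ∧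
      Qf (p, v) ≤ C₀ * ‖v‖ ^ 2 := by
  have hK : IsCompact (Q ×ˢ Metric.sphere (0 : E d) 1) := hQ.prod (isCompact_sphere 0 1)
  have hc : ContinuousOn Qf (Q ×ˢ Metric.sphere (0 : E d) 1) :=
    hQf.cont.mono (prod_mono hQV (subset_univ _))
  obtain ⟨C, hC⟩ := hK.exists_bound_of_continuousOn hc
  have hlow : ∃ c₀ : ℝ, 0 < c₀ ∧ ∀ z ∈ Q ×ˢ Metric.sphere (0 : E d) 1, c₀ ≤ Qf z := by
    by_cases hne : (Q ×ˢ Metric.sphere (0 : E d) 1).Nonempty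
    · obtain ⟨z, hz, hmin⟩ := hK.exists_isMinOn hne hc
      refine ⟨Qf z, ?_, fun w hw => hmin hw⟩
      refine hpos z.1 (hQV hz.1) z.2 ?_
      intro h0
      have : ‖z.2‖ = 1 := by simpa using hz.2
      rw [h0, norm_zero] at this
      exact zero_ne_one this
    · refine ⟨1, one_pos, fun z hz => absurd ⟨z, hz⟩ hne⟩
  obtain ⟨c₀, hc₀, hlow⟩ := hlow
  refine ⟨c₀, max C 1, hc₀, lt_max_of_lt_right one_pos, fun p hp v => ?_⟩
  by_cases hv : v = 0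
  · rw [hv, hQf.zero (hQV hp)]
    simp
  have hn : 0 < ‖v‖ := norm_pos_iff.2 hv
  obtain ⟨u, hu⟩ : ∃ u : E d, u = ‖v‖⁻¹ • v := ⟨_, rfl⟩
  have hvu : v = ‖v‖ • u := by rw [hu, smul_smul, mul_inv_cancel₀ hn.ne', one_smul]
  have hu1 : ‖u‖ = 1 := by
    rw [hu, norm_smul, norm_inv, norm_norm, inv_mul_cancel₀ hn.ne']
  have hz : ((p, u) : E d × E d) ∈ Q ×ˢ Metric.sphere (0 : E d) 1 := ⟨hp, by simp [hu1]⟩
  have h1 := hlow _ hz
  have h2 := (le_abs_self _).trans (hC _ hz)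
  obtain ⟨r, hr⟩ : ∃ r : ℝ, r = ‖v‖ := ⟨_, rfl⟩
  rw [← hr] at hvu ⊢
  rw [hvu, hQf.hom p (hQV hp)]
  have hr2 : 0 ≤ r ^ 2 := sq_nonneg r
  have h3 := le_max_left C 1
  constructor <;> nlinarith

theorem pw1 {B δ h η₁ η θ Q' Qp R' M ψ' ψp : ℝ} (hB : 0 ≤ B) (hδ : 0 ≤ δ) (hh : 0 ≤ h)
    (hθ0 : 0 ≤ θ) (hθ : θ ≤ 1 / 2) (hQp : 0 ≤ Qp)
    (hM : R' - θ * (R' + (B + h) * Q') ≤ M) (hQ' : Q' ≤ 3 / 2 * Qp) (hψ' : ψp - η₁ * Qp ≤ ψ')
    (hψ0 : 0 ≤ ψ') (hR : ψ' - (δ + h) * Q' ≤ R') (hη : 3 / 2 * (θ * B) + η₁ / 2 ≤ η) (hQ0 : 0 ≤ Q') :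
    ψp / 2 - (2 * δ + η + 4 * h) * Qp ≤ M := by
  have h1 : (1 - θ) * (ψ' - (δ + h) * Q') ≤ (1 - θ) * R' :=
    mul_le_mul_of_nonneg_left hR (by linarith)
  have h2 : ψ' / 2 ≤ (1 - θ) * ψ' := by nlinarith
  have h3 : (1 - θ) * ((δ + h) * Q') ≤ (δ + h) * Q' := by
    have : 0 ≤ (δ + h) * Q' := by positivity
    nlinarith
  have h4 : (δ + h) * Q' ≤ (δ + h) * (3 / 2 * Qp) := mul_le_mul_of_nonneg_left hQ' (by positivity)
  have h5 : θ * B * Q' ≤ θ * B * (3 / 2 * Qp) := mul_le_mul_of_nonneg_left hQ' (by positivity)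
  have h6 : θ * h * Q' ≤ 1 / 2 * h * (3 / 2 * Qp) := by
    have e1 : θ * h * Q' ≤ 1 / 2 * h * Q' := by
      have : 0 ≤ h * Q' := by positivity
      nlinarith
    exact e1.trans (mul_le_mul_of_nonneg_left hQ' (by positivity))
  have h7 : (3 / 2 * (θ * B) + η₁ / 2) * Qp ≤ η * Qp := mul_le_mul_of_nonneg_right hη hQp
  have h8 : 0 ≤ δ * Qp := by positivity
  have h9 : 0 ≤ h * Qp := by positivity
  nlinarith

theorem pw2 {b B h θ Q' Qp R' M s r : ℝ} (hb : 0 ≤ b) (hB : 0 ≤ B) (hh : 0 ≤ h)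
    (hθ : θ ≤ 1 / 2) (hQp : 0 ≤ Qp)
    (hS : 0 ≤ R' + (B + h) * Q') (hM : R' - θ * (R' + (B + h) * Q') ≤ M) (hQ' : Q' ≤ 3 / 2 * Qp)
    (hQ'' : 1 / 2 * Qp ≤ Q') (hs : 0 ≤ s) (hr : 0 ≤ r)
    (h1 : b * s * Q' ≤ (R' + (B + h) * Q') * (3 / 2 * r)) :
    b / 6 * s * Qp ≤ (M + (2 * B + 4 * h) * Qp) * r := by
  have e1 : R' + (B + h) * Q' ≤ 2 * (M + (B + h) * Q') := by nlinarith
  have e2 : (R' + (B + h) * Q') * (3 / 2 * r) ≤ 2 * (M + (B + h) * Q') * (3 / 2 * r) :=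
    mul_le_mul_of_nonneg_right e1 (by positivity)
  have e3 : b * s * (1 / 2 * Qp) ≤ b * s * Q' := mul_le_mul_of_nonneg_left hQ'' (by positivity)
  have e4 : (B + h) * Q' ≤ (B + h) * (3 / 2 * Qp) := mul_le_mul_of_nonneg_left hQ' (by positivity)
  have e5 : (B + h) * (3 / 2 * Qp) ≤ (2 * B + 4 * h) * Qp := by
    have : 0 ≤ B * Qp := by positivity
    have : 0 ≤ h * Qp := by positivity
    nlinarith
  have e6 : (M + (B + h) * Q') * r ≤ (M + (2 * B + 4 * h) * Qp) * r :=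
    mul_le_mul_of_nonneg_right (by linarith) hr
  nlinarith

theorem norm_le2 (a : Al d 2) {B : ℝ} (hB : 0 ≤ B) (h : ∀ u w : E d, |a ![u, w]| ≤
    B * (‖u‖ * ‖w‖)) : ‖a‖ ≤ B := by
  refine a.opNorm_le_bound hB fun m => ?_
  have h1 : m = ![m 0, m 1] := pair_eta m
  rw [Fin.prod_univ_two]
  nth_rewrite 1 [h1]
  exact h (m 0) (m 1)

/-- the norm of a form, from the conic inequality -/
theorem conic_norm (a : Al d 2) {b C₀ S Q' : ℝ} {Qn : E d → ℝ} (hb : 0 < b) (hC₀ : 0 ≤ C₀)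
    (hS : 0 ≤ S) (hQ' : 0 ≤ Q') (hQn : ∀ v, Qn v ≤ C₀ * ‖v‖ ^ 2)
    (h : ∀ u w : E d, b * |a ![u, w]| * Q' ≤ S * (√(Qn u) * √(Qn w))) :
    b * ‖a‖ * Q' ≤ C₀ * S := by
  rcases hQ'.eq_or_lt with h0 | h0
  · rw [← h0, mul_zero]
    positivity
  have h1 : ‖a‖ ≤ C₀ * S / (b * Q') := by
    refine norm_le2 a (by positivity) fun u w => ?_
    have h2 : √(Qn u) * √(Qn w) ≤ C₀ * (‖u‖ * ‖w‖) := by
      have e1 : ∀ v : E d, √(Qn v) ≤ √C₀ * ‖v‖ := by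
        intro v
        calc √(Qn v) ≤ √(C₀ * ‖v‖ ^ 2) := Real.sqrt_le_sqrt (hQn v)
          _ = √C₀ * ‖v‖ := by
            rw [Real.sqrt_mul hC₀, Real.sqrt_sq (norm_nonneg _)]
      calc √(Qn u) * √(Qn w) ≤ (√C₀ * ‖u‖) * (√C₀ * ‖w‖) :=
            mul_le_mul (e1 u) (e1 w) (Real.sqrt_nonneg _) (by positivity)
        _ = (√C₀ * √C₀) * (‖u‖ * ‖w‖) := by ring
        _ = _ := by rw [Real.mul_self_sqrt hC₀]
    have h3 := (h u w).trans (mul_le_mul_of_nonneg_left h2 hS)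
    rw [div_mul_eq_mul_div, le_div_iff₀ (by positivity)]
    calc |a ![u, w]| * (b * Q') = b * |a ![u, w]| * Q' := by ring
      _ ≤ S * (C₀ * (‖u‖ * ‖w‖)) := h3
      _ = _ := by ring
  rw [le_div_iff₀ (by positivity)] at h1
  calc b * ‖a‖ * Q' = ‖a‖ * (b * Q') := by ring
    _ ≤ _ := h1

end Pool.Agent.L7h49.LT
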