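import Pool.Agent.L7h49.LT.Est

/-!
# Estimates for the averages of a two-form in a chart
-/

set_option autoImplicit false

open Set Filter Topology MeasureTheory
open scoped Manifold ContDiff ENNReal

noncomputable section

namespace Pool.Agent.L7h49.LT

open Pool.Agent.Y501.SY
open Pool.Agent.Y515.SY (Al LL LL_apply moll_cs moll_int JJ two_bound lR_apply comp_cont comp_pair
  pair_eta expand2)

variable {d : ℕ}

theorem int_of {W : Type*} [NormedAddCommGroup W] {F : E d → W} {ε : ℝ}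
    (hc : ContinuousOn F (Metric.closedBall 0 ε)) (h0 : ∀ y, ε ≤ ‖y‖ → F y = 0) :
    Integrable F := by
  refine (integrableOn_iff_integrable_of_support_subset (s := Metric.closedBall 0 ε) ?_).1
    (hc.integrableOn_compact (isCompact_closedBall _ _))
  intro y hy
  by_contra h
  rw [mem_closedBall_zero_iff, not_le] at h
  exact hy (h0 y h.le)

section

variable {V : Set (E d)} {ρ χ : E d → ℝ} {ε : ℝ}

theorem sc (hρ : Moll ε ρ) {g : E d → ℝ} (hg : ContinuousOn g V) {p : E d}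
    (hp : ∀ y, ‖y‖ ≤ ε → p + χ p • y ∈ V) : Integrable (fun y => ρ y * g (p + χ p • y)) := by
  refine int_of (ε := ε) ?_ fun y hy => by rw [hρ.supp y hy, zero_mul]
  refine hρ.smooth.continuous.continuousOn.mul (hg.comp ?_ ?_)
  · exact Continuous.continuousOn (by fun_prop)
  · intro y hy
    exact hp y (mem_closedBall_zero_iff.1 hy)

theorem JJ_int' (hρ : Moll ε ρ) {s : E d → Al d 2} (hs : ContinuousOn s V) {p : E d}
    (hp : ∀ y, ‖y‖ ≤ ε → p + χ p • y ∈ V) :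
    Integrable (fun y => ρ y • (s (p + χ p • y)).compContinuousLinearMap
      (LL (fderiv ℝ χ p) y)) := by
  refine int_of (ε := ε) ?_ fun y hy => by rw [hρ.supp y hy, zero_smul]
  refine hρ.smooth.continuous.continuousOn.smul ?_
  have h1 : ContinuousOn (fun y : E d => s (p + χ p • y)) (Metric.closedBall 0 ε) := by
    refine hs.comp (Continuous.continuousOn (by fun_prop)) fun y hy =>
      hp y (mem_closedBall_zero_iff.1 hy)
  have h2 : Continuous (fun y : E d => LL (fderiv ℝ χ p) y) := by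
    unfold LL
    exact continuous_const.add
      ((ContinuousLinearMap.smulRightL ℝ (E d) (E d) (fderiv ℝ χ p)).continuous)
  exact comp_cont.comp_continuousOn (h1.prodMk h2.continuousOn)

theorem JJ_val (hρ : Moll ε ρ) {s : E d → Al d 2} (hs : ContinuousOn s V) {p : E d}
    (hp : ∀ y, ‖y‖ ≤ ε → p + χ p • y ∈ V) (v w : E d) :
    Integrable (fun y => ρ y * s (p + χ p • y) ![LL (fderiv ℝ χ p) y v,
      LL (fderiv ℝ χ p) y w]) ∧
    JJ ρ χ s p ![v, w] = ∫ y, ρ y * s (p + χ p • y) ![LL (fderiv ℝ χ p) y v,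
      LL (fderiv ℝ χ p) y w] := by
  let L : (Al d 2) →L[ℝ] ℝ := ContinuousAlternatingMap.apply ℝ (E d) ℝ ![v, w]
  have h0 := JJ_int' (χ := χ) hρ hs hp
  have e1 : ∀ y, L (ρ y • (s (p + χ p • y)).compContinuousLinearMap (LL (fderiv ℝ χ p) y)) =
      ρ y * s (p + χ p • y) ![LL (fderiv ℝ χ p) y v, LL (fderiv ℝ χ p) y w] := by
    intro y
    change ρ y * ((s (p + χ p • y)).compContinuousLinearMap (LL (fderiv ℝ χ p) y)) ![v, w] = _
    rw [comp_pair]
  constructor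
  · refine (L.integrable_comp h0).congr (Eventually.of_forall fun y => e1 y)
  · have h1 := L.integral_comp_comm h0
    have h2 : L (∫ y, ρ y • (s (p + χ p • y)).compContinuousLinearMap (LL (fderiv ℝ χ p) y)) =
      JJ ρ χ s p ![v, w] := rfl
    rw [← h2, ← h1]
    exact integral_congr_ae (Eventually.of_forall fun y => e1 y)

end

/-- the estimates in a chart -/
theorem est {V T : Set (E d)} (hV : IsOpen V) (hT : IsCompact T) (hTV : T ⊆ V)
    {χ : E d → ℝ} (hχ : ContDiff ℝ ∞ χ)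
    {Js : E d → (E d →L[ℝ] E d)} (hJ : ContinuousOn Js V) {Qf ψ : E d × E d → ℝ}
    (hQf : QH Qf V) (hpos : ∀ p ∈ V, ∀ v, v ≠ 0 → 0 < Qf (p, v)) (hψ : QH ψ V)
    {b B η : ℝ} (hb : 0 < b) (hB : 0 ≤ B) (hη : 0 < η) :
    ∃ ε₀ : ℝ, 0 < ε₀ ∧ ∀ ε, ε ≤ ε₀ → ∀ ρ : E d → ℝ, Moll ε ρ →
      ∀ (s : E d → Al d 2) (h : E d → ℝ) (δ : ℝ), ContinuousOn s V → ContinuousOn h V →
      (∀ p ∈ V, 0 ≤ h p) → 0 ≤ δ →
      (∀ p ∈ V, ∀ v, ψ (p, v) - (δ + h p) * Qf (p, v) ≤ s p ![v, Js p v]) →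
      (∀ p ∈ V, ∀ u w v, b * |s p ![u, w]| * Qf (p, v) ≤
        (s p ![v, Js p v] + (B + h p) * Qf (p, v)) * (√(Qf (p, u)) * √(Qf (p, w)))) →
      ∀ p ∈ T, (∀ y, ‖y‖ ≤ ε → p + χ p • y ∈ V) ∧
      (∀ v, ψ (p, v) / 2 - (2 * δ + η + 4 * av ρ χ h p) * Qf (p, v) ≤
        JJ ρ χ s p ![v, Js p v]) ∧
      (∀ u w v, b / 6 * |JJ ρ χ s p ![u, w]| * Qf (p, v) ≤
        (JJ ρ χ s p ![v, Js p v] + (2 * B + 4 * av ρ χ h p) * Qf (p, v)) *
          (√(Qf (p, u)) * √(Qf (p, w)))) := by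
  obtain ⟨Q, hQ, hTQ, hQV⟩ := exists_compact_between hT hV hTV
  have hQn : ∀ p ∈ T, Q ∈ 𝓝 p := fun p hp => mem_interior_iff_mem_nhds.1 (hTQ hp)
  obtain ⟨c₀, C₀, hc₀, hC₀, hbd⟩ := qbounds hQ hQV hQf hpos
  -- the constants
  obtain ⟨η₁, hη₁0, hη₁1, hη₁2⟩ : ∃ η₁ : ℝ, 0 < η₁ ∧ η₁ ≤ 1 / 2 ∧
      (4 * η₁ * C₀ / (c₀ * b) ≤ 1 / 2 ∧
        3 / 2 * (4 * η₁ * C₀ / (c₀ * b) * B) + η₁ / 2 ≤ η) := by
    have t1 : Tendsto (fun x : ℝ => 4 * x * C₀ / (c₀ * b)) (𝓝[>] 0) (𝓝 0) := by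
      have : Continuous (fun x : ℝ => 4 * x * C₀ / (c₀ * b)) := by fun_prop
      have h := this.tendsto 0
      simp only [mul_zero, zero_mul, zero_div] at h
      exact h.mono_left nhdsWithin_le_nhds
    have t2 : Tendsto (fun x : ℝ => 3 / 2 * (4 * x * C₀ / (c₀ * b) * B) + x / 2) (𝓝[>] 0)
        (𝓝 0) := by
      have : Continuous (fun x : ℝ => 3 / 2 * (4 * x * C₀ / (c₀ * b) * B) + x / 2) := by fun_prop
      have h := this.tendsto 0
      simp only [mul_zero, zero_mul, zero_div, add_zero] at h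
      exact h.mono_left nhdsWithin_le_nhds
    have t3 : Tendsto (fun x : ℝ => x) (𝓝[>] 0) (𝓝 0) := tendsto_id.mono_left nhdsWithin_le_nhds
    obtain ⟨x, ⟨⟨h1, h2⟩, h3⟩, h4⟩ := (((t3.eventually (ge_mem_nhds (show (0:ℝ) < 1 / 2 by norm_num))).and
      (t1.eventually (ge_mem_nhds (show (0:ℝ) < 1 / 2 by norm_num)))).and
      (t2.eventually (ge_mem_nhds hη)) |>.and self_mem_nhdsWithin).exists
    exact ⟨x, h4, h1, h2, h3⟩
  obtain ⟨θ, hθ⟩ : ∃ θ : ℝ, θ = 4 * η₁ * C₀ / (c₀ * b) := ⟨_, rfl⟩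
  rw [← hθ] at hη₁2
  have hθ0 : 0 ≤ θ := by rw [hθ]; positivity
  obtain ⟨ε₀, hε₀, huc⟩ := uc hV hT hTV hQn hχ hJ hQf hpos hψ hη₁0
  refine ⟨ε₀, hε₀, ?_⟩
  intro ε hε ρ hρ s h δ hs hh hh0 hδ H1 H2 p hp
  have hpV := hTV hp
  have hin : ∀ y, ‖y‖ ≤ ε → p + χ p • y ∈ V := fun y hy => (huc y (hy.trans hε) p hp).1.2
  -- the pointwise facts
  have key : ∀ y, ‖y‖ ≤ ε → ∀ v,
      0 ≤ s (p + χ p • y) ![LL (fderiv ℝ χ p) y v, Js (p + χ p • y) (LL (fderiv ℝ χ p) y v)] +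
        (B + h (p + χ p • y)) * Qf (p + χ p • y, LL (fderiv ℝ χ p) y v) ∧
      s (p + χ p • y) ![LL (fderiv ℝ χ p) y v, Js (p + χ p • y) (LL (fderiv ℝ χ p) y v)] -
        θ * (s (p + χ p • y) ![LL (fderiv ℝ χ p) y v,
          Js (p + χ p • y) (LL (fderiv ℝ χ p) y v)] +
        (B + h (p + χ p • y)) * Qf (p + χ p • y, LL (fderiv ℝ χ p) y v)) ≤
        s (p + χ p • y) ![LL (fderiv ℝ χ p) y v, LL (fderiv ℝ χ p) y (Js p v)] ∧
      Qf (p + χ p • y, LL (fderiv ℝ χ p) y v) ≤ 3 / 2 * Qf (p, v) ∧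
      1 / 2 * Qf (p, v) ≤ Qf (p + χ p • y, LL (fderiv ℝ χ p) y v) ∧
      ψ (p, v) - η₁ * Qf (p, v) ≤ ψ (p + χ p • y, LL (fderiv ℝ χ p) y v) := by
    intro y hy v
    obtain ⟨⟨hqQ, hqV⟩, hu⟩ := huc y (hy.trans hε) p hp
    obtain ⟨a1, a2, a3, a4⟩ := hu v
    obtain ⟨q, hq⟩ : ∃ q, q = p + χ p • y := ⟨_, rfl⟩
    rw [← hq] at hqQ hqV a2 a3 a4 ⊢
    obtain ⟨v', hv'⟩ : ∃ v', v' = LL (fderiv ℝ χ p) y v := ⟨_, rfl⟩
    rw [← hv'] at a1 a2 a3 a4 ⊢
    have b1 := (abs_le.1 a3).1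
    have b2 := (abs_le.1 a3).2
    have b3 := (abs_le.1 a4).1
    have hQpn : 0 ≤ Qf (p, v) := hQf.nonneg p hpV v
    have hQqn : 0 ≤ Qf (q, v') := hQf.nonneg q hqV v'
    have b4 : Qf (q, v') ≤ 3 / 2 * Qf (p, v) := by nlinarith
    have b5 : 1 / 2 * Qf (p, v) ≤ Qf (q, v') := by nlinarith
    have hS : 0 ≤ s q ![v', Js q v'] + (B + h q) * Qf (q, v') := by
      rcases hQqn.eq_or_lt with h0 | h0
      · have hv0 : v' = 0 := by
          by_contra hne
          exact absurd h0 (hpos q hqV v' hne).ne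
        have e0 : s q ![v', Js q v'] = 0 := by
          rw [hv0]
          exact (s q).map_coord_zero 0 rfl
        rw [e0, ← h0]
        simp
      · have h5 := H2 q hqV v' v' v'
        rw [Real.mul_self_sqrt hQqn] at h5
        have h6 : 0 ≤ b * |s q ![v', v']| * Qf (q, v') := by positivity
        exact nonneg_of_mul_nonneg_left (h6.trans h5) h0
    refine ⟨hS, ?_, b4, b5, by linarith⟩
    have hn := conic_norm (s q) (Qn := fun v => Qf (q, v)) hb hC₀.le hS hQqn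
      (fun v => (hbd q hqQ v).2) (fun u w => H2 q hqV u w v')
    -- the error
    have e1 : s q ![v', LL (fderiv ℝ χ p) y (Js p v)] = s q ![v', Js q v'] +
        s q ![v', LL (fderiv ℝ χ p) y (Js p v) - Js q v'] := by
      rw [← lR_apply, ← lR_apply, ← lR_apply, ← map_add]
      congr 1
      abel
    have e2 : |s q ![v', LL (fderiv ℝ χ p) y (Js p v) - Js q v']| ≤
        θ * (s q ![v', Js q v'] + (B + h q) * Qf (q, v')) := by
      refine (two_bound _ _ _).trans ?_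
      have f1 : ‖v'‖ * ‖LL (fderiv ℝ χ p) y (Js p v) - Js q v'‖ ≤ (2 * ‖v‖) * (η₁ * ‖v‖) :=
        mul_le_mul a1 a2 (norm_nonneg _) (by positivity)
      have f2 : c₀ * ‖v‖ ^ 2 ≤ 2 * Qf (q, v') := by
        have hpQ : p ∈ Q := interior_subset (hTQ hp)
        have := (hbd p hpQ v).1
        linarith
      have f3 : ‖s q‖ * (‖v'‖ * ‖LL (fderiv ℝ χ p) y (Js p v) - Js q v'‖) ≤
          ‖s q‖ * (2 * η₁ * ‖v‖ ^ 2) := by
        refine mul_le_mul_of_nonneg_left (f1.trans (le_of_eq (by ring))) (norm_nonneg _)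
      refine f3.trans ?_
      rw [hθ, div_mul_eq_mul_div, le_div_iff₀ (by positivity)]
      have f4 : 2 * η₁ * b * ‖s q‖ * (c₀ * ‖v‖ ^ 2) ≤ 2 * η₁ * b * ‖s q‖ * (2 * Qf (q, v')) :=
        mul_le_mul_of_nonneg_left f2 (by positivity)
      have f5 : 4 * η₁ * (b * ‖s q‖ * Qf (q, v')) ≤
          4 * η₁ * (C₀ * (s q ![v', Js q v'] + (B + h q) * Qf (q, v'))) :=
        mul_le_mul_of_nonneg_left hn (by positivity)
      calc ‖s q‖ * (2 * η₁ * ‖v‖ ^ 2) * (c₀ * b) = 2 * η₁ * b * ‖s q‖ * (c₀ * ‖v‖ ^ 2) := by ring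
        _ ≤ 2 * η₁ * b * ‖s q‖ * (2 * Qf (q, v')) := f4
        _ = 4 * η₁ * (b * ‖s q‖ * Qf (q, v')) := by ring
        _ ≤ _ := f5
        _ = _ := by ring
    rw [e1]
    have := (abs_le.1 e2).1
    linarith
  have hhi := sc (χ := χ) hρ hh hin
  have hρi := moll_int hρ
  refine ⟨hin, fun v => ?_, fun u w v => ?_⟩
  · obtain ⟨i1, i2⟩ := JJ_val hρ hs hin v (Js p v)
    rw [i2]
    have e1 : ψ (p, v) / 2 - (2 * δ + η + 4 * av ρ χ h p) * Qf (p, v) =
        ∫ y, (ρ y * (ψ (p, v) / 2 - (2 * δ + η) * Qf (p, v)) -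
          4 * Qf (p, v) * (ρ y * h (p + χ p • y))) := by
      rw [integral_sub (hρi.mul_const _) (hhi.const_mul _), integral_mul_const, hρ.int,
        integral_const_mul]
      unfold av
      ring
    rw [e1]
    refine integral_mono ((hρi.mul_const _).sub (hhi.const_mul _)) i1 fun y => ?_
    by_cases hy : ε ≤ ‖y‖
    · simp only [hρ.supp y hy, zero_mul, mul_zero, sub_zero]
      exact le_rfl
    have hy' := (not_le.1 hy).le
    obtain ⟨k1, k2, k3, k4, k5⟩ := key y hy' v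
    have hqV := hin y hy'
    have h3 := pw1 (B := B) (δ := δ) (h := h (p + χ p • y)) (η₁ := η₁) (η := η) (θ := θ)
      hB hδ (hh0 _ hqV) hθ0 hη₁2.1 (hQf.nonneg p hpV v) k2 k3 k5 (hψ.nonneg _ hqV _)
      (H1 _ hqV _) hη₁2.2 (hQf.nonneg _ hqV _)
    have h4 := mul_le_mul_of_nonneg_left h3 (hρ.nonneg y)
    refine le_trans (le_of_eq ?_) h4
    ring
  · obtain ⟨i1, i2⟩ := JJ_val hρ hs hin v (Js p v)
    obtain ⟨j1, j2⟩ := JJ_val hρ hs hin u w
    obtain ⟨r, hr⟩ : ∃ r : ℝ, r = √(Qf (p, u)) * √(Qf (p, w)) := ⟨_, rfl⟩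
    have hr0 : 0 ≤ r := by rw [hr]; positivity
    rw [← hr]
    have hA : |JJ ρ χ s p ![u, w]| ≤ ∫ y, ρ y * |s (p + χ p • y) ![LL (fderiv ℝ χ p) y u,
        LL (fderiv ℝ χ p) y w]| := by
      rw [j2]
      refine (abs_integral_le_integral_abs).trans (le_of_eq ?_)
      refine integral_congr_ae (Eventually.of_forall fun y => ?_)
      show |ρ y * _| = _
      rw [abs_mul, abs_of_nonneg (hρ.nonneg y)]
    have hAi : Integrable (fun y => ρ y * |s (p + χ p • y) ![LL (fderiv ℝ χ p) y u,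
        LL (fderiv ℝ χ p) y w]|) := by
      refine j1.abs.congr (Eventually.of_forall fun y => ?_)
      show |ρ y * _| = _
      rw [abs_mul, abs_of_nonneg (hρ.nonneg y)]
    have g2 : Integrable (fun y => ρ y * (2 * B * Qf (p, v) * r)) := hρi.mul_const _
    have g3 : Integrable (fun y => 4 * Qf (p, v) * r * (ρ y * h (p + χ p • y))) :=
      hhi.const_mul _
    have g23 : Integrable (fun y => ρ y * (2 * B * Qf (p, v) * r) +
      4 * Qf (p, v) * r * (ρ y * h (p + χ p • y))) := g2.add g3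
    have e1 : (JJ ρ χ s p ![v, Js p v] + (2 * B + 4 * av ρ χ h p) * Qf (p, v)) * r =
        ∫ y, ((ρ y * s (p + χ p • y) ![LL (fderiv ℝ χ p) y v, LL (fderiv ℝ χ p) y (Js p v)]) * r +
          (ρ y * (2 * B * Qf (p, v) * r) + 4 * Qf (p, v) * r * (ρ y * h (p + χ p • y)))) := by
      rw [integral_add (i1.mul_const r) g23, integral_mul_const, ← i2, integral_add g2 g3,
        integral_mul_const, hρ.int, integral_const_mul]
      unfold av
      ring
    have e2 : b / 6 * |JJ ρ χ s p ![u, w]| * Qf (p, v) ≤ ∫ y, b / 6 * Qf (p, v) *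
        (ρ y * |s (p + χ p • y) ![LL (fderiv ℝ χ p) y u, LL (fderiv ℝ χ p) y w]|) := by
      rw [integral_const_mul]
      calc b / 6 * |JJ ρ χ s p ![u, w]| * Qf (p, v) =
            b / 6 * Qf (p, v) * |JJ ρ χ s p ![u, w]| := by ring
        _ ≤ _ := mul_le_mul_of_nonneg_left hA (mul_nonneg (by positivity)
            (hQf.nonneg p hpV v))
    refine e2.trans ?_
    rw [e1]
    refine integral_mono (hAi.const_mul _)
      ((i1.mul_const r).add ((hρi.mul_const _).add (hhi.const_mul _))) fun y => ?_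
    by_cases hy : ε ≤ ‖y‖
    · simp only [hρ.supp y hy, zero_mul, mul_zero, add_zero]
      exact le_rfl
    have hy' := (not_le.1 hy).le
    obtain ⟨k1, k2, k3, k4, k5⟩ := key y hy' v
    obtain ⟨-, -, u3, -, -⟩ := key y hy' u
    obtain ⟨-, -, w3, -, -⟩ := key y hy' w
    have hqV := hin y hy'
    have hsq : √(Qf (p + χ p • y, LL (fderiv ℝ χ p) y u)) *
        √(Qf (p + χ p • y, LL (fderiv ℝ χ p) y w)) ≤ 3 / 2 * r := by
      have g1 : √(Qf (p + χ p • y, LL (fderiv ℝ χ p) y u)) ≤ √(3 / 2) * √(Qf (p, u)) := by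
        rw [← Real.sqrt_mul (by norm_num)]
        exact Real.sqrt_le_sqrt u3
      have g2 : √(Qf (p + χ p • y, LL (fderiv ℝ χ p) y w)) ≤ √(3 / 2) * √(Qf (p, w)) := by
        rw [← Real.sqrt_mul (by norm_num)]
        exact Real.sqrt_le_sqrt w3
      calc _ ≤ (√(3 / 2) * √(Qf (p, u))) * (√(3 / 2) * √(Qf (p, w))) :=
            mul_le_mul g1 g2 (Real.sqrt_nonneg _) (by positivity)
        _ = (√(3 / 2) * √(3 / 2)) * r := by rw [hr]; ring
        _ = _ := by rw [Real.mul_self_sqrt (by norm_num)]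
    have h3 := pw2 (b := b) (B := B) (h := h (p + χ p • y)) (θ := θ)
      (s := |s (p + χ p • y) ![LL (fderiv ℝ χ p) y u, LL (fderiv ℝ χ p) y w]|) (r := r)
      hb.le hB (hh0 _ hqV) hη₁2.1 (hQf.nonneg p hpV v) k1 k2 k3 k4 (abs_nonneg _) hr0
      ((H2 _ hqV _ _ _).trans (mul_le_mul_of_nonneg_left hsq k1))
    have h4 := mul_le_mul_of_nonneg_left h3 (hρ.nonneg y)
    refine le_trans (le_of_eq ?_) (h4.trans (le_of_eq ?_))
    · ring
    · ring

end Pool.Agent.L7h49.LT
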