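import Pool.Agent.L7h49.LT.Iter

/-!
# Points reached in the mean, and functions controlled in the mean
-/

set_option autoImplicit false

open Set Filter Topology MeasureTheory
open scoped Manifold ContDiff ENNReal

noncomputable section

namespace Pool.Agent.L7h49.LT

open Pool.Agent.Y501.SY
open Pool.Agent.N13.TL (q q_nonneg FC Reached Ctrl Locus Fib RS)
open Pool.Agent.Y455.SY (A B AB BA Q_eq Q_cont Q_smul)

variable {d : ℕ} {X : Type} [TopologicalSpace X] [ChartedSpace (E d) X]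

theorem QT.mulFun {Ψ : (x : X) → TangentSpace (𝓡 d) x → ℝ} (hΨ : QT Ψ) {u : X → ℝ}
    (hu : Continuous u) (hu0 : ∀ x, 0 ≤ u x) : QT (fun x v => u x * Ψ x v) := by
  intro x₀
  obtain ⟨h1, h2, h3⟩ := hΨ x₀
  refine ⟨?_, fun p hp v c => ?_, fun p hp v => ?_⟩
  · have h4 : ContinuousOn (fun z : E d × E d => u ((chartAt (E d) x₀).symm z.1))
        ((chartAt (E d) x₀).target ×ˢ univ) :=
      hu.comp_continuousOn ((chartAt (E d) x₀).continuousOn_symm.comp continuousOn_fst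
        fun z hz => hz.1)
    exact h4.mul h1
  · have := h2 p hp v c
    simp only at this ⊢
    rw [this]
    ring
  · exact mul_nonneg (hu0 _) (h3 p hp v)

variable [IsManifold (𝓡 d) ∞ X]

theorem dd_chart {f : X → ℝ} (hf : SmoothFun (d := d) f) (x₀ : X) {p : E d}
    (hp : p ∈ (chartAt (E d) x₀).target) (v : E d) :
    dd f ((chartAt (E d) x₀).symm p) (A x₀ p v) =
      fderiv ℝ (fun q => f ((chartAt (E d) x₀).symm q)) p v := by
  have h1 : MDifferentiableAt (𝓡 d) (𝓡 d) (chartAt (E d) x₀).symm p :=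
    ((contMDiffOn_chart_symm (I := 𝓡 d) (n := ∞) (x := x₀)).contMDiffAt
      ((chartAt (E d) x₀).open_target.mem_nhds hp)).mdifferentiableAt (by simp)
  have h2 := (hf.mdiff ((chartAt (E d) x₀).symm p)).hasMFDerivAt.comp p h1.hasMFDerivAt
  have h3 := h2.mfderiv
  rw [mfderiv_eq_fderiv] at h3
  have h4 := congrArg (fun L => L v) h3
  exact h4.symm

theorem qt_dd {f : X → ℝ} (hf : SmoothFun (d := d) f) {κ : ℝ} (hκ : 0 ≤ κ) :
    QT (d := d) (fun x v => κ * (dd f x v) ^ 2) := by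
  intro x₀
  have hs : ContDiffOn ℝ ∞ (fun q => f ((chartAt (E d) x₀).symm q)) (chartAt (E d) x₀).target := by
    have h1 : ContMDiffOn (𝓡 d) 𝓘(ℝ, ℝ) ∞ (fun q => f ((chartAt (E d) x₀).symm q))
        (chartAt (E d) x₀).target :=
      hf.comp_contMDiffOn contMDiffOn_chart_symm
    exact contMDiffOn_iff_contDiffOn.1 h1
  have hfd : ContinuousOn (fderiv ℝ (fun q => f ((chartAt (E d) x₀).symm q)))
      (chartAt (E d) x₀).target :=
    hs.continuousOn_fderiv_of_isOpen (chartAt (E d) x₀).open_target (by simp)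
  refine ⟨?_, fun p hp v c => ?_, fun p hp v => by positivity⟩
  · have h2 : ContinuousOn (fun z : E d × E d =>
        κ * (fderiv ℝ (fun q => f ((chartAt (E d) x₀).symm q)) z.1 z.2) ^ 2)
        ((chartAt (E d) x₀).target ×ˢ univ) := by
      refine continuousOn_const.mul (ContinuousOn.pow ?_ 2)
      exact (hfd.comp continuousOn_fst fun z hz => hz.1).clm_apply continuousOn_snd
    refine h2.congr fun z hz => ?_
    show κ * (dd f ((chartAt (E d) x₀).symm z.1) (A x₀ z.1 z.2)) ^ 2 = _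
    rw [dd_chart hf x₀ hz.1]
  · show κ * (dd f _ (A x₀ p (c • v))) ^ 2 = c ^ 2 * (κ * (dd f _ (A x₀ p v)) ^ 2)
    rw [dd_chart hf x₀ hp, dd_chart hf x₀ hp, map_smul, smul_eq_mul]
    ring

/-- approximations in the mean -/
structure AP (𝒞 : Set (Form d X 2)) (J : End d X) (τ : Form d X 2) (b Bc : ℝ)
    (σ : ℕ → Form d X 2) (h : ℕ → X → ℝ) : Prop where
  b0 : 0 < b
  B0 : 0 ≤ Bc
  mem : ∀ k, σ k ∈ 𝒞
  cont : ∀ k, Continuous (h k)
  nonneg : ∀ k x, 0 ≤ h k x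
  mean : MS d h
  nef : ∀ (k : ℕ) (x : X) (v : TangentSpace (𝓡 d) x), -(h k x) * q τ J x v ≤ q (σ k) J x v
  con : ∀ (k : ℕ) (x : X) (u w v : TangentSpace (𝓡 d) x), b * |σ k x ![u, w]| * q τ J x v ≤
    (q (σ k) J x v + (Bc + h k x) * q τ J x v) * (√(q τ J x u) * √(q τ J x w))

variable [CompactSpace X] [T2Space X]

theorem AP.use {J : End d X} (hJ : IsAlmostComplex J) {τ : Form d X 2} (hτ : IsSmooth τ)
    (hτt : ∀ x, TamesAt τ J x) : ∃ c : ℝ, 0 < c ∧
    ∀ {𝒞 : Set (Form d X 2)}, FC 𝒞 → ∀ {b Bc : ℝ} {σ : ℕ → Form d X 2} {h : ℕ → X → ℝ},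
      AP 𝒞 J τ b Bc σ h → ∀ {Ψ : (x : X) → TangentSpace (𝓡 d) x → ℝ}, QT Ψ →
      (∀ (k : ℕ) (x : X) (v : TangentSpace (𝓡 d) x), Ψ x v - h k x * q τ J x v ≤ q (σ k) J x v) →
      ∀ ε : ℝ, 0 < ε → ∃ w ∈ 𝒞, ∀ (x : X) (v : TangentSpace (𝓡 d) x),
        c * Ψ x v - ε * q τ J x v ≤ q w J x v := by
  obtain ⟨c, hc, H⟩ := mean_main hJ hτ hτt
  refine ⟨c, hc, fun {𝒞} hC {b Bc σ h} hA {Ψ} hΨ hlow ε hε => ?_⟩
  refine H hC hA.mem hA.cont hA.nonneg hA.mean hΨ hA.b0 hA.B0 (fun k => ⟨fun x v => ?_, hA.con k⟩)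
    ε hε
  rw [zero_add]
  exact hlow k x v

/-- points reached in the mean are reached -/
theorem reached_of_mean {J : End d X} (hJ : IsAlmostComplex J) {τ : Form d X 2}
    (hτ : IsSmooth τ) (hτt : ∀ x, TamesAt τ J x) {𝒞 : Set (Form d X 2)} (hC : FC 𝒞) {b Bc : ℝ}
    {σ : ℕ → Form d X 2} {h : ℕ → X → ℝ} (hA : AP 𝒞 J τ b Bc σ h) {x : X} {N : Set X}
    (hN : N ∈ 𝓝 x) {c : ℝ} (hc : 0 < c)
    (hlow : ∀ (k : ℕ), ∀ y ∈ N, ∀ v : TangentSpace (𝓡 d) y,
      (c - h k y) * q τ J y v ≤ q (σ k) J y v) : Reached 𝒞 J τ x := by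
  obtain ⟨c', hc', H⟩ := AP.use hJ hτ hτt
  obtain ⟨M, hM, hMc, hMN⟩ := exists_mem_nhds_isClosed_subset
    (isOpen_interior.mem_nhds (mem_interior_iff_mem_nhds.2 hN))
  have hdis : Disjoint (interior N)ᶜ M :=
    Set.disjoint_left.2 fun y h1 h2 => h1 (hMN h2)
  obtain ⟨u, hu0, hu1, hu⟩ := exists_continuous_zero_one_of_isClosed
    isOpen_interior.isClosed_compl hMc hdis
  have hΨ : QT (d := d) (fun y v => (c * u y) * q τ J y v) :=
    (qt_q hJ hτ hτt).mulFun (continuous_const.mul u.continuous)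
      fun y => mul_nonneg hc.le (hu y).1
  have h1 : ∀ (k : ℕ) (y : X) (v : TangentSpace (𝓡 d) y),
      (c * u y) * q τ J y v - h k y * q τ J y v ≤ q (σ k) J y v := by
    intro k y v
    have t0 := q_nonneg (hτt y) v
    by_cases hy : y ∈ N
    · have e1 := hlow k y hy v
      have e2 : c * u y ≤ c := mul_le_of_le_one_right hc.le (hu y).2
      have e3 := mul_le_mul_of_nonneg_right e2 t0
      linarith
    · have e1 := hA.nef k y v
      have e2 : u y = 0 := hu0 (fun h => hy (interior_subset h))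
      rw [e2]
      linarith
  refine ⟨M, hM, c' * c / 2, by positivity, fun ε hε => ?_⟩
  obtain ⟨w, hw, hw'⟩ := H hC hA hΨ h1 (min ε (c' * c / 2)) (by positivity)
  refine ⟨w, hw, fun y v => ?_, fun y hy v => ?_⟩
  · have t0 := q_nonneg (hτt y) v
    have e1 := hw' y v
    have e2 := mul_le_mul_of_nonneg_right (min_le_left ε (c' * c / 2)) t0
    have e3 : 0 ≤ c' * ((c * u y) * q τ J y v) :=
      mul_nonneg hc'.le (mul_nonneg (mul_nonneg hc.le (hu y).1) t0)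
    linarith
  · have t0 := q_nonneg (hτt y) v
    have e1 := hw' y v
    have e2 := mul_le_mul_of_nonneg_right (min_le_right ε (c' * c / 2)) t0
    have e3 : u y = 1 := hu1 hy
    rw [e3] at e1
    linarith

/-- functions controlled in the mean are controlled -/
theorem ctrl_of_mean {J : End d X} (hJ : IsAlmostComplex J) {τ : Form d X 2}
    (hτ : IsSmooth τ) (hτt : ∀ x, TamesAt τ J x) {𝒞 : Set (Form d X 2)} (hC : FC 𝒞) {b Bc : ℝ}
    {σ : ℕ → Form d X 2} {h : ℕ → X → ℝ} (hA : AP 𝒞 J τ b Bc σ h) {f : X → ℝ}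
    (hf : SmoothFun (d := d) f) {κ : ℝ} (hκ : 0 < κ)
    (hlow : ∀ (k : ℕ) (y : X) (v : TangentSpace (𝓡 d) y),
      κ * (dd f y v) ^ 2 - h k y * q τ J y v ≤ q (σ k) J y v) : Ctrl 𝒞 J τ f := by
  obtain ⟨c', hc', H⟩ := AP.use hJ hτ hτt
  refine ⟨hf, c' * κ, by positivity, fun ε hε => ?_⟩
  obtain ⟨w, hw, hw'⟩ := H hC hA (qt_dd hf hκ.le) hlow ε hε
  refine ⟨w, hw, fun y v => ?_⟩
  have := hw' y v
  rw [mul_assoc]
  exact this

end Pool.Agent.L7h49.LT
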