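import Pool.Agent.L7h49.LT.Est2

/-!
# Averages of functions on a manifold in one chart
-/

set_option autoImplicit false

open Set Filter Topology MeasureTheory
open scoped Manifold ContDiff ENNReal

noncomputable section

namespace Pool.Agent.L7h49.LT

open Pool.Agent.Y501.SY
open Pool.Agent.Y515.SY (Al LL LL_apply moll_cs moll_int JJ)

variable {d : ℕ} {X : Type} [TopologicalSpace X] [ChartedSpace (E d) X]

/-- data of a regularization in the chart at `x₀` -/
structure Loc (x₀ : X) (χ ρ : E d → ℝ) (ε D : ℝ) (Q : Set (E d)) (f : E d → ℝ) : Prop where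
  χs : ContDiff ℝ ∞ χ
  χ0 : ∀ p, 0 ≤ χ p
  χc : HasCompactSupport χ
  moll : Moll ε ρ
  hD : ∀ p, ‖fderiv ℝ χ p‖ ≤ D
  Dε : D * ε ≤ 1 / 2
  Qc : IsCompact Q
  QV : Q ⊆ (chartAt (E d) x₀).target
  move : ∀ p ∈ tsupport χ, ∀ y, ‖y‖ ≤ ε → p + χ p • y ∈ Q
  TQ : tsupport χ ⊆ interior Q
  fc : Continuous f
  f0 : ∀ p, 0 ≤ f p
  f1 : ∀ p, f p ≤ 1
  fQ : ∀ p ∈ Q, f p = 1
  fs : ∃ Q₂ : Set (E d), IsCompact Q₂ ∧ Q₂ ⊆ (chartAt (E d) x₀).target ∧ ∀ p, p ∉ Q₂ → f p = 0

/-- a function on `X` in the chart, multiplied by a cut-off -/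
def ext (x₀ : X) (f : E d → ℝ) (h : X → ℝ) (p : E d) : ℝ := f p * h ((chartAt (E d) x₀).symm p)

open Classical in
/-- the average of the function `h` -/
def AA (x₀ : X) (χ ρ f : E d → ℝ) (h : X → ℝ) (x : X) : ℝ :=
  if x ∈ (chartAt (E d) x₀).source ∧ chartAt (E d) x₀ x ∈ tsupport χ then
    av ρ χ (ext x₀ f h) (chartAt (E d) x₀ x) else h x

/-- the integrals over compact sets in charts tend to zero -/
def MS (d : ℕ) {X : Type} [TopologicalSpace X] [ChartedSpace (E d) X] (h : ℕ → X → ℝ) : Prop :=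
  ∀ (x₁ : X) (K : Set (E d)), IsCompact K → K ⊆ (chartAt (E d) x₁).target →
    Tendsto (fun k => ∫⁻ p in K, ENNReal.ofReal (h k ((chartAt (E d) x₁).symm p))) atTop (𝓝 0)

/-- locally uniform convergence to zero on `O` -/
def US (h : ℕ → X → ℝ) (O : Set X) : Prop :=
  ∀ x ∈ O, ∃ N ∈ 𝓝 x, ∀ ε : ℝ, 0 < ε → ∀ᶠ k in atTop, ∀ y ∈ N, h k y ≤ ε

section

variable {x₀ : X} {χ ρ f : E d → ℝ} {ε D : ℝ} {Q : Set (E d)}

theorem Loc.ext_cont (L : Loc x₀ χ ρ ε D Q f) {h : X → ℝ} (hh : Continuous h) :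
    Continuous (ext x₀ f h) := by
  obtain ⟨Q₂, hQ₂, hV, h0⟩ := L.fs
  rw [continuous_iff_continuousAt]
  intro p
  by_cases hp : p ∈ (chartAt (E d) x₀).target
  · exact L.fc.continuousAt.mul (hh.continuousAt.comp
      ((chartAt (E d) x₀).continuousAt_symm hp))
  · have hpQ : p ∉ Q₂ := fun h => hp (hV h)
    have h1 : ext x₀ f h =ᶠ[𝓝 p] fun _ => 0 := by
      filter_upwards [hQ₂.isClosed.isOpen_compl.mem_nhds hpQ] with q hq
      unfold ext
      rw [h0 q hq, zero_mul]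
    exact continuousAt_const.congr h1.symm

theorem Loc.ext_nonneg (L : Loc x₀ χ ρ ε D Q f) {h : X → ℝ} (hh : ∀ x, 0 ≤ h x) (p : E d) :
    0 ≤ ext x₀ f h p := mul_nonneg (L.f0 p) (hh _)

theorem Loc.ext_le (L : Loc x₀ χ ρ ε D Q f) {h : X → ℝ} (hh : ∀ x, 0 ≤ h x) (p : E d) :
    ext x₀ f h p ≤ h ((chartAt (E d) x₀).symm p) :=
  mul_le_of_le_one_left (hh _) (L.f1 p)

theorem Loc.ext_eq (L : Loc x₀ χ ρ ε D Q f) {h : X → ℝ} {p : E d} (hp : p ∈ Q) :
    ext x₀ f h p = h ((chartAt (E d) x₀).symm p) := by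
  unfold ext
  rw [L.fQ p hp, one_mul]

theorem Loc.av_eq (L : Loc x₀ χ ρ ε D Q f) {h : X → ℝ} {p : E d} (hp : p ∈ tsupport χ) :
    av ρ χ (ext x₀ f h) p = av ρ χ (fun q => h ((chartAt (E d) x₀).symm q)) p := by
  unfold av
  refine integral_congr_ae (Eventually.of_forall fun y => ?_)
  show ρ y * _ = ρ y * _
  by_cases hy : ε ≤ ‖y‖
  · rw [L.moll.supp y hy, zero_mul, zero_mul]
  · rw [L.ext_eq (L.move p hp y (not_le.1 hy).le)]

theorem Loc.in_eq (L : Loc x₀ χ ρ ε D Q f) {h : X → ℝ} {x : X}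
    (hx : x ∈ (chartAt (E d) x₀).source) (hx2 : chartAt (E d) x₀ x ∈ interior Q) :
    AA x₀ χ ρ f h x = av ρ χ (ext x₀ f h) (chartAt (E d) x₀ x) := by
  unfold AA
  split_ifs with h1
  · rfl
  · have h2 : chartAt (E d) x₀ x ∉ tsupport χ := fun h => h1 ⟨hx, h⟩
    have h3 : χ (chartAt (E d) x₀ x) = 0 := image_eq_zero_of_notMem_tsupport h2
    rw [av_zero L.moll h3, L.ext_eq (interior_subset hx2), (chartAt (E d) x₀).left_inv hx]

theorem Loc.S_compact (L : Loc x₀ χ ρ ε D Q f) :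
    IsCompact ((chartAt (E d) x₀).symm '' tsupport χ) := by
  refine IsCompact.image_of_continuousOn L.χc ?_
  exact (chartAt (E d) x₀).continuousOn_symm.mono ((L.TQ.trans interior_subset).trans L.QV)

theorem Loc.mem_S (L : Loc x₀ χ ρ ε D Q f) {x : X} :
    x ∈ (chartAt (E d) x₀).symm '' tsupport χ ↔
      x ∈ (chartAt (E d) x₀).source ∧ chartAt (E d) x₀ x ∈ tsupport χ := by
  constructor
  · rintro ⟨p, hp, rfl⟩
    have hpt := L.QV (interior_subset (L.TQ hp))
    refine ⟨(chartAt (E d) x₀).map_target hpt, ?_⟩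
    rwa [(chartAt (E d) x₀).right_inv hpt]
  · rintro ⟨h1, h2⟩
    exact ⟨_, h2, (chartAt (E d) x₀).left_inv h1⟩

theorem Loc.out_eq (L : Loc x₀ χ ρ ε D Q f) {h : X → ℝ} {x : X}
    (hx : x ∉ (chartAt (E d) x₀).symm '' tsupport χ) : AA x₀ χ ρ f h x = h x := by
  unfold AA
  rw [if_neg fun h => hx (L.mem_S.2 h)]

theorem Loc.AA_cont [T2Space X] (L : Loc x₀ χ ρ ε D Q f) {h : X → ℝ} (hh : Continuous h) :
    Continuous (AA x₀ χ ρ f h) := by
  rw [continuous_iff_continuousAt]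
  intro x
  by_cases hx : x ∈ (chartAt (E d) x₀).symm '' tsupport χ
  · obtain ⟨h1, h2⟩ := L.mem_S.1 hx
    have hc : ContinuousAt (fun x => av ρ χ (ext x₀ f h) (chartAt (E d) x₀ x)) x :=
      (av_cont L.moll L.χs.continuous (L.ext_cont hh)).continuousAt.comp
        ((chartAt (E d) x₀).continuousAt h1)
    refine hc.congr ?_
    have h3 : ∀ᶠ y in 𝓝 x, chartAt (E d) x₀ y ∈ interior Q :=
      ((chartAt (E d) x₀).continuousAt h1).eventually (isOpen_interior.mem_nhds (L.TQ h2))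
    filter_upwards [(chartAt (E d) x₀).open_source.mem_nhds h1, h3] with y hy1 hy2
    exact (L.in_eq hy1 hy2).symm
  · refine hh.continuousAt.congr ?_
    filter_upwards [L.S_compact.isClosed.isOpen_compl.mem_nhds hx] with y hy
    exact (L.out_eq hy).symm

theorem Loc.AA_nonneg (L : Loc x₀ χ ρ ε D Q f) {h : X → ℝ} (hh : ∀ x, 0 ≤ h x) (x : X) :
    0 ≤ AA x₀ χ ρ f h x := by
  unfold AA
  split_ifs
  · exact av_nonneg L.moll (L.ext_nonneg hh) _
  · exact hh x

variable [IsManifold (𝓡 d) ∞ X]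

omit [IsManifold (𝓡 d) ∞ X] in
/-- change of charts in integrals -/
theorem trans_le' (e e₁ : OpenPartialHomeomorph X (E d))
    (h1 : ContMDiffOn (𝓡 d) (𝓡 d) ∞ e₁ e₁.source)
    (h2 : ContMDiffOn (𝓡 d) (𝓡 d) ∞ e.symm e.target) {K : Set (E d)} (hK : IsCompact K)
    (hK1 : K ⊆ e₁.target) (hK0 : ∀ p ∈ K, e₁.symm p ∈ e.source) :
    ∃ C : ℝ≥0∞, C ≠ ⊤ ∧ ∀ H : E d → ℝ≥0∞,
      ∫⁻ p in K, H (e (e₁.symm p)) ≤ C * ∫⁻ q in (fun p => e (e₁.symm p)) '' K, H q := by
  set Lp : Set (E d) := (fun p => e (e₁.symm p)) '' K with hLp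
  set g : E d → E d := fun q => e₁ (e.symm q) with hg
  have hgf : ∀ p ∈ K, g (e (e₁.symm p)) = p := by
    intro p hp
    show e₁ (e.symm (e (e₁.symm p))) = p
    rw [e.left_inv (hK0 p hp), e₁.right_inv (hK1 hp)]
  have hfg : ∀ q ∈ Lp, e (e₁.symm (g q)) = q := by
    rintro _ ⟨p, hp, rfl⟩
    show e (e₁.symm (g (e (e₁.symm p)))) = _
    rw [hgf p hp]
  have himg : g '' Lp = K := by
    apply Subset.antisymm
    · rintro _ ⟨_, ⟨p, hp, rfl⟩, rfl⟩
      show g (e (e₁.symm p)) ∈ K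
      rw [hgf p hp]; exact hp
    · intro p hp
      exact ⟨e (e₁.symm p), ⟨p, hp, rfl⟩, hgf p hp⟩
  have hLc : IsCompact Lp := by
    refine hK.image_of_continuousOn ?_
    intro p hp
    have h1 : ContinuousAt e₁.symm p := e₁.continuousAt_symm (hK1 hp)
    have h2 : ContinuousAt e (e₁.symm p) := e.continuousAt (hK0 p hp)
    exact (ContinuousAt.comp (f := e₁.symm) h2 h1).continuousWithinAt
  -- smoothness of the transition
  obtain ⟨O, hO⟩ : ∃ O : Set (E d), O = e.target ∩ e.symm ⁻¹' e₁.source := ⟨_, rfl⟩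
  have hOo : IsOpen O := by rw [hO]; exact e.isOpen_inter_preimage_symm e₁.open_source
  have hLO : Lp ⊆ O := by
    rintro _ ⟨p, hp, rfl⟩
    rw [hO]
    refine ⟨e.map_source (hK0 p hp), ?_⟩
    show e.symm (e (e₁.symm p)) ∈ e₁.source
    rw [e.left_inv (hK0 p hp)]
    exact e₁.map_target (hK1 hp)
  have hgs : ContDiffOn ℝ ∞ g O := by
    rw [← contMDiffOn_iff_contDiffOn]
    refine (h1.comp (h2.mono (by rw [hO]; exact inter_subset_left)) ?_)
    rw [hO]; exact inter_subset_right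
  have hgd : ∀ q ∈ Lp, HasFDerivAt g (fderiv ℝ g q) q := by
    intro q hq
    have h1 : ContDiffAt ℝ ∞ g q := hgs.contDiffAt (hOo.mem_nhds (hLO hq))
    exact (h1.differentiableAt (by simp)).hasFDerivAt
  have hgc : ContinuousOn (fun q => |(fderiv ℝ g q).det|) Lp := by
    have h1 : ContinuousOn (fderiv ℝ g) O := hgs.continuousOn_fderiv_of_isOpen hOo (by simp)
    exact (ContinuousLinearMap.continuous_det.comp_continuousOn (h1.mono hLO)).abs
  obtain ⟨C, hC⟩ := hLc.exists_bound_of_continuousOn hgc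
  refine ⟨ENNReal.ofReal C, ENNReal.ofReal_ne_top, fun H => ?_⟩
  have hinj : InjOn g Lp := by
    intro q hq q' hq' h
    rw [← hfg q hq, ← hfg q' hq', h]
  have h3 := lintegral_image_eq_lintegral_abs_det_fderiv_mul (volume : Measure (E d))
    hLc.measurableSet (fun q hq => (hgd q hq).hasFDerivWithinAt) hinj
    (fun p => H (e (e₁.symm p)))
  rw [himg] at h3
  rw [h3, ← lintegral_const_mul' _ _ ENNReal.ofReal_ne_top]
  refine setLIntegral_mono' hLc.measurableSet fun q hq => ?_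
  rw [hfg q hq]
  refine mul_le_mul_left (ENNReal.ofReal_le_ofReal ?_) _
  have := hC q hq
  rw [Real.norm_eq_abs, abs_abs] at this
  exact this

theorem trans_le (x₀ x₁ : X) {K : Set (E d)} (hK : IsCompact K)
    (hK1 : K ⊆ (chartAt (E d) x₁).target)
    (hK0 : ∀ p ∈ K, (chartAt (E d) x₁).symm p ∈ (chartAt (E d) x₀).source) :
    ∃ C : ℝ≥0∞, C ≠ ⊤ ∧ ∀ H : E d → ℝ≥0∞,
      ∫⁻ p in K, H (chartAt (E d) x₀ ((chartAt (E d) x₁).symm p)) ≤
        C * ∫⁻ q in (fun p => chartAt (E d) x₀ ((chartAt (E d) x₁).symm p)) '' K, H q :=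
  trans_le' (chartAt (E d) x₀) (chartAt (E d) x₁) contMDiffOn_chart contMDiffOn_chart_symm hK hK1
    hK0

theorem Loc.MS_AA [T2Space X] (L : Loc x₀ χ ρ ε D Q f) {h : ℕ → X → ℝ}
    (hc : ∀ k, Continuous (h k)) (h0 : ∀ k x, 0 ≤ h k x) (hm : MS d h) :
    MS d (fun k => AA x₀ χ ρ f (h k)) := by
  intro x₁ K hK hK1
  obtain ⟨S, hS⟩ : ∃ S, S = (chartAt (E d) x₀).symm '' tsupport χ := ⟨_, rfl⟩
  have hSc : IsCompact S := by rw [hS]; exact L.S_compact
  obtain ⟨K₁, hK₁⟩ : ∃ K₁ : Set (E d), K₁ = K ∩ (chartAt (E d) x₁).symm ⁻¹' S := ⟨_, rfl⟩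
  have hK₁c : IsCompact K₁ := by
    rw [hK₁]
    refine hK.of_isClosed_subset ?_ inter_subset_left
    exact ((chartAt (E d) x₁).continuousOn_symm.mono hK1).preimage_isClosed_of_isClosed
      hK.isClosed hSc.isClosed
  have hK₁s : ∀ p ∈ K₁, (chartAt (E d) x₁).symm p ∈ (chartAt (E d) x₀).source ∧
      chartAt (E d) x₀ ((chartAt (E d) x₁).symm p) ∈ tsupport χ := by
    intro p hp
    rw [hK₁] at hp
    have := hp.2
    rw [mem_preimage, hS] at this
    exact L.mem_S.1 this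
  obtain ⟨C, hC, h1⟩ := trans_le x₀ x₁ hK₁c ((by rw [hK₁]; exact inter_subset_left :
    K₁ ⊆ K).trans hK1) (fun p hp => (hK₁s p hp).1)
  obtain ⟨C', hC', h2⟩ := av_lint (d := d) L.moll
  have hbound : ∀ k, ∫⁻ p in K, ENNReal.ofReal (AA x₀ χ ρ f (h k) ((chartAt (E d) x₁).symm p)) ≤
      (∫⁻ p in K, ENNReal.ofReal (h k ((chartAt (E d) x₁).symm p))) +
        C * (C' * ∫⁻ q in Q, ENNReal.ofReal (h k ((chartAt (E d) x₀).symm q))) := by
    intro k
    have hKsub : K ⊆ (K \ K₁) ∪ K₁ := fun p hp => by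
      by_cases hp1 : p ∈ K₁
      · exact Or.inr hp1
      · exact Or.inl ⟨hp, hp1⟩
    refine (lintegral_mono_set hKsub).trans ((lintegral_union_le _ _ _).trans
      (add_le_add ?_ ?_))
    · refine le_trans (le_of_eq ?_) (lintegral_mono_set (s := K \ K₁) sdiff_subset)
      refine setLIntegral_congr_fun (hK.measurableSet.diff hK₁c.measurableSet) fun p hp => ?_
      have hpS : (chartAt (E d) x₁).symm p ∉ (chartAt (E d) x₀).symm '' tsupport χ := by
        intro h'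
        apply hp.2
        rw [hK₁]
        refine ⟨hp.1, ?_⟩
        rw [mem_preimage, hS]
        exact h'
      show ENNReal.ofReal (AA x₀ χ ρ f (h k) ((chartAt (E d) x₁).symm p)) = _
      rw [L.out_eq hpS]
    · have e1 : ∫⁻ p in K₁, ENNReal.ofReal (AA x₀ χ ρ f (h k) ((chartAt (E d) x₁).symm p)) =
          ∫⁻ p in K₁, ENNReal.ofReal (av ρ χ (ext x₀ f (h k))
            (chartAt (E d) x₀ ((chartAt (E d) x₁).symm p))) := by
        refine setLIntegral_congr_fun hK₁c.measurableSet fun p hp => ?_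
        show ENNReal.ofReal (AA x₀ χ ρ f (h k) ((chartAt (E d) x₁).symm p)) = _
        unfold AA
        rw [if_pos (hK₁s p hp)]
      rw [e1]
      refine (h1 (fun q => ENNReal.ofReal (av ρ χ (ext x₀ f (h k)) q))).trans
        (mul_le_mul_right ?_ _)
      have h3 := h2 L.χs L.hD L.Dε (L.ext_cont (hc k)) (L.ext_nonneg (h0 k))
        (T := tsupport χ) (Q := Q) (isClosed_tsupport χ).measurableSet L.move
      refine (lintegral_mono_set ?_).trans (h3.trans (le_of_eq ?_))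
      · rintro _ ⟨p, hp, rfl⟩
        exact (hK₁s p hp).2
      · congr 1
        refine setLIntegral_congr_fun L.Qc.measurableSet fun q hq => ?_
        show ENNReal.ofReal (ext x₀ f (h k) q) = _
        rw [L.ext_eq hq]
  have hlim : Tendsto (fun k => (∫⁻ p in K, ENNReal.ofReal (h k ((chartAt (E d) x₁).symm p))) +
        C * (C' * ∫⁻ q in Q, ENNReal.ofReal (h k ((chartAt (E d) x₀).symm q)))) atTop
      (𝓝 (0 + C * (C' * 0))) := by
    refine (hm x₁ K hK hK1).add ?_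
    refine ENNReal.Tendsto.const_mul ?_ (Or.inr hC)
    exact ENNReal.Tendsto.const_mul (hm x₀ Q L.Qc L.QV) (Or.inr hC')
  rw [mul_zero, mul_zero, add_zero] at hlim
  exact tendsto_of_tendsto_of_tendsto_of_le_of_le tendsto_const_nhds hlim
    (fun k => zero_le) hbound

omit [IsManifold (𝓡 d) ∞ X] in
theorem Loc.US_AA [T2Space X] (L : Loc x₀ χ ρ ε D Q f) {h : ℕ → X → ℝ}
    (hc : ∀ k, Continuous (h k)) (h0 : ∀ k x, 0 ≤ h k x) (hm : MS d h) {O : Set X}
    (hu : US h O) : US (fun k => AA x₀ χ ρ f (h k))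
      (O ∪ {x | x ∈ (chartAt (E d) x₀).source ∧ χ (chartAt (E d) x₀ x) ≠ 0}) := by
  have hε : 0 < ε := by
    by_contra hneg
    rw [not_lt] at hneg
    have h1 : ∀ y, ρ y = 0 := fun y => L.moll.supp y (hneg.trans (norm_nonneg _))
    have h2 := L.moll.int
    simp_rw [h1] at h2
    simp at h2
  intro x hx
  by_cases hW : x ∈ (chartAt (E d) x₀).source ∧ χ (chartAt (E d) x₀ x) ≠ 0
  · obtain ⟨hxs, hχx⟩ := hW
    have hpos : 0 < χ (chartAt (E d) x₀ x) := lt_of_le_of_ne (L.χ0 _) (Ne.symm hχx)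
    obtain ⟨κ, hκ⟩ : ∃ κ : ℝ, κ = χ (chartAt (E d) x₀ x) / 2 := ⟨_, rfl⟩
    have hκ0 : 0 < κ := by rw [hκ]; positivity
    obtain ⟨C, hC, h1⟩ := av_sup (d := d) L.moll hκ0
    refine ⟨(chartAt (E d) x₀).source ∩ (chartAt (E d) x₀) ⁻¹' {p | κ < χ p}, ?_, ?_⟩
    · refine inter_mem ((chartAt (E d) x₀).open_source.mem_nhds hxs) ?_
      refine ((chartAt (E d) x₀).continuousAt hxs).preimage_mem_nhds ?_
      refine (isOpen_lt continuous_const L.χs.continuous).mem_nhds ?_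
      show κ < χ (chartAt (E d) x₀ x)
      rw [hκ]; linarith
    · intro δ hδ
      have hlim : Tendsto (fun k => C * ∫⁻ q in Q, ENNReal.ofReal
          (h k ((chartAt (E d) x₀).symm q))) atTop (𝓝 (C * 0)) :=
        ENNReal.Tendsto.const_mul (hm x₀ Q L.Qc L.QV) (Or.inr hC)
      rw [mul_zero] at hlim
      have hδ' : (0 : ℝ≥0∞) < ENNReal.ofReal δ := ENNReal.ofReal_pos.2 hδ
      filter_upwards [hlim.eventually (ge_mem_nhds hδ')] with k hk y hy
      have hyχ : κ ≤ χ (chartAt (E d) x₀ y) := le_of_lt hy.2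
      have hyT : chartAt (E d) x₀ y ∈ tsupport χ := by
        refine subset_tsupport χ ?_
        rw [Function.mem_support]
        linarith
      have h2 := h1 (χ := χ) (L.ext_cont (hc k)) (L.ext_nonneg (h0 k)) (chartAt (E d) x₀ y) Q hyχ
        (L.move _ hyT)
      have e2 : ∫⁻ q in Q, ENNReal.ofReal (ext x₀ f (h k) q) =
          ∫⁻ q in Q, ENNReal.ofReal (h k ((chartAt (E d) x₀).symm q)) := by
        refine setLIntegral_congr_fun L.Qc.measurableSet fun q hq => ?_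
        show ENNReal.ofReal (ext x₀ f (h k) q) = _
        rw [L.ext_eq hq]
      rw [e2] at h2
      have h3 := h2.trans hk
      show AA x₀ χ ρ f (h k) y ≤ δ
      unfold AA
      rw [if_pos ⟨hy.1, hyT⟩]
      exact (ENNReal.ofReal_le_ofReal_iff hδ.le).1 h3
  · have hxO : x ∈ O := by
      rcases hx with h | h
      · exact h
      · exact absurd h hW
    obtain ⟨N, hN, hNu⟩ := hu x hxO
    by_cases hxS : x ∈ (chartAt (E d) x₀).symm '' tsupport χ
    · obtain ⟨hxs, hxT⟩ := L.mem_S.1 hxS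
      have hχ0 : χ (chartAt (E d) x₀ x) = 0 := by
        by_contra h
        exact hW ⟨hxs, h⟩
      obtain ⟨p₀, hp₀⟩ : ∃ p₀, p₀ = chartAt (E d) x₀ x := ⟨_, rfl⟩
      rw [← hp₀] at hχ0 hxT
      have hpt : p₀ ∈ (chartAt (E d) x₀).target := by
        rw [hp₀]; exact (chartAt (E d) x₀).map_source hxs
      have hNp : (chartAt (E d) x₀).symm ⁻¹' N ∈ 𝓝 p₀ := by
        refine ((chartAt (E d) x₀).continuousAt_symm hpt).preimage_mem_nhds ?_
        rw [hp₀, (chartAt (E d) x₀).left_inv hxs]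
        exact hN
      have hev : ∀ᶠ p in 𝓝 p₀, ∀ y ∈ Metric.closedBall (0 : E d) ε,
          p + χ p • y ∈ (chartAt (E d) x₀).symm ⁻¹' N := by
        refine (isCompact_closedBall (0 : E d) ε).eventually_forall_of_forall_eventually
          (P := fun p y => p + χ p • y ∈ (chartAt (E d) x₀).symm ⁻¹' N) fun y _ => ?_
        have hχc := L.χs.continuous
        have h2 : ContinuousAt (fun z : E d × E d => z.1 + χ z.1 • z.2) (p₀, y) := by fun_prop
        have h3 : (fun z : E d × E d => z.1 + χ z.1 • z.2) (p₀, y) = p₀ := by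
          show p₀ + χ p₀ • y = p₀
          rw [hχ0, zero_smul, add_zero]
        have h4 : (chartAt (E d) x₀).symm ⁻¹' N ∈
            𝓝 ((fun z : E d × E d => z.1 + χ z.1 • z.2) (p₀, y)) := by rw [h3]; exact hNp
        exact h2.eventually h4
      have hev' : ∀ᶠ z in 𝓝 x, ∀ y ∈ Metric.closedBall (0 : E d) ε,
          chartAt (E d) x₀ z + χ (chartAt (E d) x₀ z) • y ∈ (chartAt (E d) x₀).symm ⁻¹' N := by
        have hca := (chartAt (E d) x₀).continuousAt hxs
        rw [hp₀] at hev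
        exact hca.eventually hev
      refine ⟨_, inter_mem hN hev', fun δ hδ => ?_⟩
      filter_upwards [hNu δ hδ] with k hk z hz
      show AA x₀ χ ρ f (h k) z ≤ δ
      unfold AA
      split_ifs with h1
      · refine av_le L.moll (L.ext_cont (hc k)) fun y hy => ?_
        refine (L.ext_le (h0 k) _).trans (hk _ ?_)
        exact hz.2 y (mem_closedBall_zero_iff.2 hy)
      · exact hk z hz.1
    · refine ⟨N ∩ ((chartAt (E d) x₀).symm '' tsupport χ)ᶜ,
        inter_mem hN (L.S_compact.isClosed.isOpen_compl.mem_nhds hxS), fun δ hδ => ?_⟩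
      filter_upwards [hNu δ hδ] with k hk z hz
      show AA x₀ χ ρ f (h k) z ≤ δ
      rw [L.out_eq hz.2]
      exact hk z hz.1

end

end Pool.Agent.L7h49.LT
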