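import Pool.Agent.L7h49.LT.StepX
import Pool.Agent.Y501.SY.AmenU

/-!
# Composition of the regularizations
-/

set_option autoImplicit false

open Set Filter Topology MeasureTheory
open scoped Manifold ContDiff ENNReal

noncomputable section

namespace Pool.Agent.L7h49.LT

open Pool.Agent.Y501.SY
open Pool.Agent.N13.TL (q q_nonneg FC)
open Pool.Agent.Y455.SY (A B AB BA Q_eq Q_cont Q_smul)

variable {d : ℕ} {X : Type} [TopologicalSpace X] [ChartedSpace (E d) X]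

theorem MS.const_mul {h : ℕ → X → ℝ} (hm : MS d h) {c : ℝ} (hc : 0 ≤ c) :
    MS d (fun k x => c * h k x) := by
  intro x₁ K hK hK1
  have h1 := ENNReal.Tendsto.const_mul (a := ENNReal.ofReal c) (hm x₁ K hK hK1)
    (Or.inr ENNReal.ofReal_ne_top)
  rw [mul_zero] at h1
  refine h1.congr fun k => ?_
  rw [← lintegral_const_mul' _ _ ENNReal.ofReal_ne_top]
  refine lintegral_congr fun p => ?_
  rw [ENNReal.ofReal_mul hc]

theorem US.const_mul {h : ℕ → X → ℝ} {O : Set X} (hu : US h O) {c : ℝ} (hc : 0 < c) :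
    US (fun k x => c * h k x) O := by
  intro x hx
  obtain ⟨N, hN, h1⟩ := hu x hx
  refine ⟨N, hN, fun ε hε => ?_⟩
  filter_upwards [h1 (ε / c) (by positivity)] with k hk y hy
  have := hk y hy
  rw [le_div_iff₀ hc] at this
  linarith

theorem US.unif [CompactSpace X] {h : ℕ → X → ℝ} (hu : US h univ) {ε : ℝ} (hε : 0 < ε) :
    ∀ᶠ k in atTop, ∀ x, h k x ≤ ε := by
  have h1 : ∀ᶠ k in atTop, ∀ x ∈ (univ : Set X), h k x ≤ ε := by
    refine (isCompact_univ (X := X)).induction_on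
      (p := fun s => ∀ᶠ k in atTop, ∀ x ∈ s, h k x ≤ ε) ?_ ?_ ?_ ?_
    · exact Eventually.of_forall fun k x hx => absurd hx (notMem_empty x)
    · intro s t hst ht
      filter_upwards [ht] with k hk x hx using hk x (hst hx)
    · intro s t hs ht
      filter_upwards [hs, ht] with k h1 h2 x hx
      rcases hx with hx | hx
      · exact h1 x hx
      · exact h2 x hx
    · intro x _
      obtain ⟨N, hN, h1⟩ := hu x (mem_univ x)
      exact ⟨N, mem_nhdsWithin_of_mem_nhds hN, h1 ε hε⟩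
  filter_upwards [h1] with k hk x using hk x (mem_univ x)

theorem QT.half {Ψ : (x : X) → TangentSpace (𝓡 d) x → ℝ} (hΨ : QT Ψ) :
    QT (fun x v => Ψ x v / 2) := by
  intro x₀
  obtain ⟨h1, h2, h3⟩ := hΨ x₀
  refine ⟨h1.div_const 2, fun p hp v c => ?_, fun p hp v => ?_⟩
  · have := h2 p hp v c
    simp only at this ⊢
    rw [this]
    ring
  · have := h3 p hp v
    simp only at this ⊢
    positivity

variable [IsManifold (𝓡 d) ∞ X]

/-- adding an exact form -/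
theorem add_exact {σ : Form d X 2} (hs : IsSmooth σ) (hc : IsClosedForm σ) {α : Form d X 1}
    {ρ : Form d X 2} (h1 : IsSmooth α) (h2 : IsSmooth ρ) (h3 : IsD α ρ) :
    IsSmooth (σ + ρ) ∧ IsClosedForm (σ + ρ) := by
  refine ⟨hs.add h2, ?_⟩
  have h4 : IsClosedForm ρ := closed_of_isD h1 h2 h3
  have h5 := IsD.add hc h4 hs h2
  rwa [add_zero] at h5

/-- the regularization -/
structure Rg (J : End d X) (τ : Form d X 2) (W : Set X) (c : ℝ)
    (Ψ : (x : X) → TangentSpace (𝓡 d) x → ℝ) (b Bc ε δ₀ : ℝ)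
    (R : Form d X 2 → Form d X 2) (A' : (X → ℝ) → X → ℝ) : Prop where
  exact : ∀ σ, IsSmooth σ → IsClosedForm σ → ∃ (α : Form d X 1) (ρ : Form d X 2), IsSmooth α ∧
    IsSmooth ρ ∧ IsD α ρ ∧ R σ = σ + ρ
  cont : ∀ h, Continuous h → (∀ x, 0 ≤ h x) → Continuous (A' h) ∧ ∀ x, 0 ≤ A' h x
  low : ∀ σ h, IsSmooth σ → IsClosedForm σ → Continuous h → (∀ x, 0 ≤ h x) →
    HH J τ Ψ b Bc δ₀ σ h → ∀ (x : X) (v : TangentSpace (𝓡 d) x),
      c * Ψ x v - (ε + A' h x) * q τ J x v ≤ q (R σ) J x v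
  ms : ∀ h : ℕ → X → ℝ, (∀ k, Continuous (h k)) → (∀ k x, 0 ≤ h k x) → MS d h →
    MS d (fun k => A' (h k)) ∧ ∀ O, US h O → US (fun k => A' (h k)) (O ∪ W)

theorem iter [T2Space X] {J : End d X} (hJ : IsAlmostComplex J) {τ : Form d X 2}
    (hτ : IsSmooth τ) (hτt : ∀ x, TamesAt τ J x) {χ : X → E d → ℝ}
    (hχ : ∀ x, ContDiff ℝ ∞ (χ x)) (hχ0 : ∀ x p, 0 ≤ χ x p)
    (hχc : ∀ x, HasCompactSupport (χ x))
    (hχV : ∀ x, tsupport (χ x) ⊆ (chartAt (E d) x).target) (l : List X) :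
    ∀ (Ψ : (x : X) → TangentSpace (𝓡 d) x → ℝ), QT Ψ → ∀ b : ℝ, 0 < b → ∀ Bc : ℝ, 0 ≤ Bc →
    ∀ ε : ℝ, 0 < ε → ∃ (δ₀ : ℝ) (R : Form d X 2 → Form d X 2) (A' : (X → ℝ) → X → ℝ), 0 < δ₀ ∧
      Rg J τ {y | ∃ x ∈ l, y ∈ (chartAt (E d) x).source ∧ χ x (chartAt (E d) x y) ≠ 0}
        ((1 / 2) ^ l.length) Ψ b Bc ε δ₀ R A' := by
  induction l with
  | nil =>
    intro Ψ hΨ b hb Bc hB ε hε
    refine ⟨ε, id, id, hε, ⟨fun σ hs hc => ⟨0, 0, IsSmooth.zero, IsSmooth.zero, IsD.zero, ?_⟩,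
      fun h hc h0 => ⟨hc, h0⟩, fun σ h _ _ _ _ H x v => ?_, fun h hc h0 hm => ⟨hm, fun O hu => ?_⟩⟩⟩
    · rw [add_zero]; rfl
    · have := H.low x v
      simpa using this
    · have : O ∪ {y | ∃ x ∈ ([] : List X), y ∈ (chartAt (E d) x).source ∧
          χ x (chartAt (E d) x y) ≠ 0} = O := by
        ext y
        simp
      rw [this]
      exact hu
  | cons x₀ l ih =>
    intro Ψ hΨ b hb Bc hB ε hε
    obtain ⟨δ₁, R₂, A₂, hδ₁, G⟩ := ih _ hΨ.half (b / 6) (by positivity) (2 * Bc) (by positivity)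
      ε hε
    obtain ⟨R₁, A₁, g1, g2, g3, g4⟩ := stepX hJ hτ hτt x₀ (hχ x₀) (hχ0 x₀) (hχc x₀) (hχV x₀) hΨ
      hb hB (half_pos hδ₁)
    refine ⟨δ₁ / 4, fun σ => R₂ (R₁ σ), fun h => A₂ (fun x => 4 * A₁ h x), by positivity,
      ⟨fun σ hs hc => ?_, fun h hc h0 => ?_, fun σ h hs hcl hc h0 H x v => ?_,
        fun h hc h0 hm => ?_⟩⟩
    · obtain ⟨α, ρ, h1, h2, h3, h4⟩ := g1 σ hs hc
      obtain ⟨e1, e2⟩ := add_exact hs hc h1 h2 h3
      rw [← h4] at e1 e2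
      obtain ⟨α', ρ', h1', h2', h3', h4'⟩ := G.exact _ e1 e2
      refine ⟨α + α', ρ + ρ', h1.add h1', h2.add h2', IsD.add h3 h3' h1 h1', ?_⟩
      show R₂ (R₁ σ) = _
      rw [h4', h4, add_assoc]
    · obtain ⟨e1, e2⟩ := g2 h hc h0
      exact G.cont _ (continuous_const.mul e1) fun x => by
        have := e2 x
        positivity
    · obtain ⟨α, ρ, h1, h2, h3, h4⟩ := g1 σ hs hcl
      obtain ⟨e1, e2⟩ := add_exact hs hcl h1 h2 h3
      rw [← h4] at e1 e2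
      obtain ⟨f1, f2⟩ := g2 h hc h0
      have h5 := g3 σ h (δ₁ / 4) hs hcl hc h0 (by positivity) H
      have h6 : 2 * (δ₁ / 4) + δ₁ / 2 = δ₁ := by ring
      rw [h6] at h5
      have h7 := G.low (R₁ σ) (fun x => 4 * A₁ h x) e1 e2
        (show Continuous (fun x => 4 * A₁ h x) from continuous_const.mul f1)
        (fun x => mul_nonneg (by norm_num) (f2 x)) h5 x v
      rw [List.length_cons, pow_succ]
      refine le_trans (le_of_eq ?_) h7
      ring
    · obtain ⟨e1, e2⟩ := g4 h hc h0 hm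
      have hc' : ∀ k, Continuous (fun x => 4 * A₁ (h k) x) := fun k =>
        continuous_const.mul (g2 (h k) (hc k) (h0 k)).1
      have h0' : ∀ k x, 0 ≤ 4 * A₁ (h k) x := fun k x => by
        have := (g2 (h k) (hc k) (h0 k)).2 x
        positivity
      obtain ⟨f1, f2⟩ := G.ms (fun k x => 4 * A₁ (h k) x) hc' h0' (e1.const_mul (by norm_num))
      refine ⟨f1, fun O hu => ?_⟩
      have h8 := f2 _ ((e2 O hu).const_mul (c := 4) (by norm_num))
      have h9 : O ∪ {y | ∃ x ∈ x₀ :: l, y ∈ (chartAt (E d) x).source ∧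
          χ x (chartAt (E d) x y) ≠ 0} = O ∪ {y | y ∈ (chartAt (E d) x₀).source ∧
          χ x₀ (chartAt (E d) x₀ y) ≠ 0} ∪ {y | ∃ x ∈ l, y ∈ (chartAt (E d) x).source ∧
          χ x (chartAt (E d) x y) ≠ 0} := by
        ext y
        simp only [mem_union, mem_ofPred_eq, List.mem_cons]
        constructor
        · rintro (h | ⟨x, hx | hx, hy⟩)
          · exact Or.inl (Or.inl h)
          · subst hx
            exact Or.inl (Or.inr hy)
          · exact Or.inr ⟨x, hx, hy⟩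
        · rintro ((h | h) | ⟨x, hx, hy⟩)
          · exact Or.inl h
          · exact Or.inr ⟨x₀, Or.inl rfl, h⟩
          · exact Or.inr ⟨x, Or.inr hx, hy⟩
      rw [h9]
      exact h8

omit [IsManifold (𝓡 d) ∞ X] in
/-- bump functions in the charts -/
theorem exists_bump (x : X) : ∃ χ : E d → ℝ, ContDiff ℝ ∞ χ ∧ (∀ p, 0 ≤ χ p) ∧
    HasCompactSupport χ ∧ tsupport χ ⊆ (chartAt (E d) x).target ∧
    χ (chartAt (E d) x x) ≠ 0 := by
  obtain ⟨r, hr, hball⟩ := Metric.nhds_basis_closedBall.mem_iff.1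
    ((chartAt (E d) x).open_target.mem_nhds (mem_chart_target (E d) x))
  let χ : ContDiffBump (chartAt (E d) x x) := ⟨r / 2, r, by positivity, by linarith⟩
  refine ⟨χ, χ.contDiff, fun p => χ.nonneg, χ.hasCompactSupport, ?_, ?_⟩
  · rw [χ.tsupport_eq]
    exact hball
  · have h1 : χ (chartAt (E d) x x) = 1 :=
      χ.one_of_mem_closedBall (Metric.mem_closedBall_self (by positivity))
    rw [h1]
    exact one_ne_zero

/-- **The global estimate.** -/
theorem mean_main [CompactSpace X] [T2Space X] {J : End d X} (hJ : IsAlmostComplex J)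
    {τ : Form d X 2} (hτ : IsSmooth τ) (hτt : ∀ x, TamesAt τ J x) : ∃ c : ℝ, 0 < c ∧
    ∀ {𝒞 : Set (Form d X 2)}, FC 𝒞 → ∀ {σ : ℕ → Form d X 2} {h : ℕ → X → ℝ},
      (∀ k, σ k ∈ 𝒞) → (∀ k, Continuous (h k)) → (∀ k x, 0 ≤ h k x) → MS d h →
      ∀ {Ψ : (x : X) → TangentSpace (𝓡 d) x → ℝ}, QT Ψ → ∀ {b Bc : ℝ}, 0 < b → 0 ≤ Bc →
      (∀ k, HH J τ Ψ b Bc 0 (σ k) (h k)) →
      ∀ ε : ℝ, 0 < ε → ∃ w ∈ 𝒞, ∀ (x : X) (v : TangentSpace (𝓡 d) x),
        c * Ψ x v - ε * q τ J x v ≤ q w J x v := by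
  classical
  choose χ hχ hχ0 hχc hχV hχx using exists_bump (d := d) (X := X)
  have hWo : ∀ x, IsOpen {y | y ∈ (chartAt (E d) x).source ∧ χ x (chartAt (E d) x y) ≠ 0} := by
    intro x
    have h1 : IsOpen {p | χ x p ≠ 0} := isOpen_ne_fun (hχ x).continuous continuous_const
    exact (chartAt (E d) x).isOpen_inter_preimage h1
  obtain ⟨F, hF⟩ := (isCompact_univ (X := X)).elim_nhds_subcover
    (fun x => {y | y ∈ (chartAt (E d) x).source ∧ χ x (chartAt (E d) x y) ≠ 0})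
    (fun x _ => (hWo x).mem_nhds ⟨mem_chart_source (E d) x, hχx x⟩)
  have hcov : {y | ∃ x ∈ F.toList, y ∈ (chartAt (E d) x).source ∧
      χ x (chartAt (E d) x y) ≠ 0} = univ := by
    refine eq_univ_of_forall fun y => ?_
    have h1 := hF.2 (mem_univ y)
    rw [mem_iUnion₂] at h1
    obtain ⟨x, hx, hy⟩ := h1
    exact ⟨x, Finset.mem_toList.2 hx, hy⟩
  refine ⟨(1 / 2) ^ F.toList.length, by positivity, ?_⟩
  intro 𝒞 hC σ h hmem hc h0 hm Ψ hΨ b Bc hb hB H ε hε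
  obtain ⟨δ₀, R, A', hδ₀, G⟩ := iter hJ hτ hτt hχ hχ0 hχc hχV F.toList Ψ hΨ b hb Bc hB (ε / 2)
    (half_pos hε)
  rw [hcov] at G
  have hH : ∀ k, HH J τ Ψ b Bc δ₀ (σ k) (h k) := by
    intro k
    refine ⟨fun x v => ?_, (H k).con⟩
    have h1 := (H k).low x v
    have h2 := q_nonneg (hτt x) v
    have : 0 ≤ δ₀ * q τ J x v := by positivity
    linarith
  have hu : US (fun k => A' (h k)) univ := by
    have h1 := (G.ms h hc h0 hm).2 ∅ (fun x hx => absurd hx (notMem_empty x))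
    rwa [union_univ] at h1
  obtain ⟨k, hk⟩ := (hu.unif (half_pos hε)).exists
  have hs := hC.smooth _ (hmem k)
  have hcl := hC.closed _ (hmem k)
  obtain ⟨α, ρ, h1, h2, h3, h4⟩ := G.exact _ hs hcl
  refine ⟨R (σ k), ?_, fun x v => ?_⟩
  · rw [h4]
    exact hC.exact _ (hmem k) α ρ h1 h2 h3
  · have h5 := G.low (σ k) (h k) hs hcl (hc k) (h0 k) (hH k) x v
    have h6 := q_nonneg (hτt x) v
    have h7 := mul_le_mul_of_nonneg_right (hk x) h6
    linarith

end Pool.Agent.L7h49.LT
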