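import Pool.Agent.L7h49.LT.Fn
import Pool.Agent.N13.TL.Main

/-!
# One step of the regularization on a manifold
-/

set_option autoImplicit false

open Set Filter Topology MeasureTheory
open scoped Manifold ContDiff ENNReal

noncomputable section

namespace Pool.Agent.L7h49.LT

open Pool.Agent.Y501.SY
open Pool.Agent.N13.TL (q q_nonneg)
open Pool.Agent.Y455.SY (A B AB BA Q_eq Q_cont Q_smul)
open Pool.Agent.Y515.SY (Al LL LL_apply moll_cs moll_int JJ moll_exists)

variable {d : ℕ} {X : Type} [TopologicalSpace X] [ChartedSpace (E d) X]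

/-- continuous nonnegative functions on the tangent bundle, homogeneous of degree two -/
def QT (Ψ : (x : X) → TangentSpace (𝓡 d) x → ℝ) : Prop :=
  ∀ x₀ : X, QH (fun z : E d × E d => Ψ ((chartAt (E d) x₀).symm z.1) (A x₀ z.1 z.2))
    (chartAt (E d) x₀).target

/-- the inequalities -/
structure HH (J : End d X) (τ : Form d X 2) (Ψ : (x : X) → TangentSpace (𝓡 d) x → ℝ) (b B : ℝ)
    (δ : ℝ) (σ : Form d X 2) (h : X → ℝ) : Prop where
  low : ∀ (x : X) (v : TangentSpace (𝓡 d) x), Ψ x v - (δ + h x) * q τ J x v ≤ q σ J x v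
  con : ∀ (x : X) (u w v : TangentSpace (𝓡 d) x), b * |σ x ![u, w]| * q τ J x v ≤
    (q σ J x v + (B + h x) * q τ J x v) * (√(q τ J x u) * √(q τ J x w))

variable [IsManifold (𝓡 d) ∞ X]

theorem qt_q {J : End d X} (hJ : IsAlmostComplex J) {τ : Form d X 2} (hτ : IsSmooth τ)
    (hτt : ∀ x, TamesAt τ J x) : QT (fun x v => q τ J x v) := by
  intro x₀
  have e1 : ∀ p ∈ (chartAt (E d) x₀).target, ∀ v : E d,
      q τ J ((chartAt (E d) x₀).symm p) (A x₀ p v) = Pool.Agent.Y455.SY.Q τ J x₀ p v :=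
    fun p hp v => (Q_eq τ J x₀ hp v).symm
  refine ⟨?_, ?_, ?_⟩
  · rintro ⟨p, v⟩ ⟨hp, -⟩
    refine ContinuousAt.continuousWithinAt ?_
    refine (Q_cont hτ hJ x₀ (v := v) hp).congr ?_
    have : ∀ᶠ z : E d × E d in 𝓝 (p, v), z.1 ∈ (chartAt (E d) x₀).target :=
      continuousAt_fst.eventually ((chartAt (E d) x₀).open_target.mem_nhds hp)
    filter_upwards [this] with z hz
    exact (e1 z.1 hz z.2).symm
  · intro p hp v c
    show q τ J _ (A x₀ p (c • v)) = c ^ 2 * q τ J _ (A x₀ p v)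
    rw [e1 p hp, e1 p hp, Q_smul]
  · intro p hp v
    exact q_nonneg (hτt _) _

theorem A_inj (x₀ : X) {p : E d} (hp : p ∈ (chartAt (E d) x₀).target) {v : E d} (hv : v ≠ 0) :
    (A x₀ p v : E d) ≠ 0 := by
  intro h
  apply hv
  have := BA x₀ hp v
  rw [h, map_zero] at this
  exact this.symm

/-- regularization of closed two-forms in a chart -/
theorem reg [T2Space X] (x₀ : X) {χ ρ : E d → ℝ} {ε : ℝ} (hχ : ContDiff ℝ ∞ χ)
    (hχ0 : ∀ p, 0 ≤ χ p) (hχc : HasCompactSupport χ)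
    (hχV : tsupport χ ⊆ (chartAt (E d) x₀).target) (hε : 0 < ε) (hρ : Moll ε ρ)
    (hseg : ∀ p ∈ (chartAt (E d) x₀).target, ∀ y, ‖y‖ ≤ ε → ∀ t : ℝ, 0 ≤ t → t ≤ 1 →
      p + (t * χ p) • y ∈ (chartAt (E d) x₀).target) {σ : Form d X 2} (hσ : IsSmooth σ)
    (hσc : IsClosedForm σ) :
    ∃ (α : Form d X 1) (η : Form d X 2), IsSmooth α ∧ IsSmooth η ∧ IsD α η ∧
      (∀ x, x ∉ (chartAt (E d) x₀).source ∨ chartAt (E d) x₀ x ∉ tsupport χ →
        (σ + η) x = σ x) ∧
      ∀ p ∈ (chartAt (E d) x₀).target, pb (chartAt (E d) x₀).symm (σ + η) p =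
        JJ ρ χ (pb (chartAt (E d) x₀).symm σ) p := by
  have hs : ContDiffOn ℝ ∞ (pb (chartAt (E d) x₀).symm σ) (chartAt (E d) x₀).target :=
    hσ _ _ (chartAt (E d) x₀).open_target contMDiffOn_chart_symm
  have hcl : ∀ p ∈ (chartAt (E d) x₀).target, extDeriv (pb (chartAt (E d) x₀).symm σ) p = 0 := by
    intro p hp
    rw [hσc _ _ (chartAt (E d) x₀).open_target contMDiffOn_chart_symm p hp, pb_zero]
    rfl
  obtain ⟨h, h1, h2, h3⟩ := Pool.Agent.Y689.SY.t_HH Pool.Agent.Y394.SY.t_SM d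
    (chartAt (E d) x₀).target χ ρ (pb (chartAt (E d) x₀).symm σ) ε
    (chartAt (E d) x₀).open_target hχ hχ0 hχc hε hρ hs hcl hseg
  have himg : chartAt (E d) x₀ '' (chartAt (E d) x₀).source = (chartAt (E d) x₀).target :=
    (chartAt (E d) x₀).image_source_eq_target
  have hz : ∀ p, p ∉ tsupport χ → χ p = 0 := fun p hp => image_eq_zero_of_notMem_tsupport hp
  obtain ⟨β₁, σ₁, f1, f2, f3, f4, f5, f6⟩ := Pool.Agent.Y891.SY.t_PATCHP d X x₀
    (chartAt (E d) x₀).source ∅ ∅ (tsupport χ) h 0 σ σ (chartAt (E d) x₀).open_source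
    Subset.rfl isClosed_empty Subset.rfl hχc (by rw [himg]; exact hχV)
    (fun x hx => absurd hx (notMem_empty x))
    (by
      rw [himg, empty_inter, image_empty, sdiff_empty]
      exact h1)
    (by
      rw [himg]
      intro p hp
      rw [h2 p (hz p hp.2), pb_zero]
      rfl) hσ hσc (fun U φ hU hφ _ => IsSmooth.zero U φ hU hφ) (fun U φ hU hφ _ => hσ U φ hU hφ)
    (fun U φ hU hφ _ p hp => by
      rw [sub_self]
      exact IsD.zero U φ hU hφ p hp)
  have g2 : IsSmooth σ₁ := fun U φ hU hφ => f2 U φ hU hφ fun p _ => notMem_empty _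
  refine ⟨β₁, σ₁ - σ, fun U φ hU hφ => f1 U φ hU hφ fun p _ => notMem_empty _, ?_,
    fun U φ hU hφ => f3 U φ hU hφ fun p _ => notMem_empty _, ?_, ?_⟩
  · have h4 := g2.add (hσ.smul (-1))
    have h5 : σ₁ + (-1 : ℝ) • σ = σ₁ - σ := by
      funext x
      apply ContinuousAlternatingMap.ext
      intro v
      show σ₁ x v + (-1 : ℝ) * σ x v = σ₁ x v - σ x v
      ring
    rw [h5] at h4
    exact h4
  · intro x hx
    rw [add_sub_cancel]
    exact (f4 x hx).2
  · intro p hp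
    rw [add_sub_cancel]
    have h4 := f6 p (by rw [himg, empty_inter, image_empty, sdiff_empty]; exact hp)
    rw [h4, h3 p hp]
    abel

end Pool.Agent.L7h49.LT
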