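import Pool.Agent.L7h49.LT.Step

/-!
# One step of the regularization on a manifold: the estimates
-/

set_option autoImplicit false

open Set Filter Topology MeasureTheory
open scoped Manifold ContDiff ENNReal

noncomputable section

namespace Pool.Agent.L7h49.LT

open Pool.Agent.Y501.SY
open Pool.Agent.N13.TL (q q_nonneg)
open Pool.Agent.Y455.SY (A B AB BA Q_eq Q_cont Q_smul)
open Pool.Agent.Y515.SY (Al LL LL_apply moll_cs moll_int JJ moll_exists)

variable {d : ℕ} {X : Type} [TopologicalSpace X] [ChartedSpace (E d) X] [IsManifold (𝓡 d) ∞ X]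

theorem q_chart (σ : Form d X 2) (J : End d X) (x₀ : X) {p : E d}
    (hp : p ∈ (chartAt (E d) x₀).target) (v : E d) :
    q σ J ((chartAt (E d) x₀).symm p) (A x₀ p v) =
      pb (chartAt (E d) x₀).symm σ p ![v, inChart J x₀ p v] := (Q_eq σ J x₀ hp v).symm

theorem QT.nonneg {Ψ : (x : X) → TangentSpace (𝓡 d) x → ℝ} (hΨ : QT Ψ) (x : X)
    (v : TangentSpace (𝓡 d) x) : 0 ≤ Ψ x v := by
  have h1 : ∀ p ∈ (chartAt (E d) x).target,
      ∀ u : TangentSpace (𝓡 d) ((chartAt (E d) x).symm p), 0 ≤ Ψ ((chartAt (E d) x).symm p) u := by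
    intro p hp u
    obtain ⟨v', hv'⟩ : ∃ v' : E d, v' = B x p u := ⟨_, rfl⟩
    have hv := AB x hp u
    rw [← hv'] at hv
    have h2 := (hΨ x).nonneg p hp v'
    simp only at h2
    rw [hv] at h2
    exact h2
  have h3 := h1 _ (mem_chart_target (E d) x)
  rw [(chartAt (E d) x).left_inv (mem_chart_source (E d) x)] at h3
  exact h3 v

omit [IsManifold (𝓡 d) ∞ X] in
/-- the choice of the data in a chart -/
theorem exists_loc (x₀ : X) {χ : E d → ℝ} (hχ : ContDiff ℝ ∞ χ) (hχ0 : ∀ p, 0 ≤ χ p)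
    (hχc : HasCompactSupport χ) (hχV : tsupport χ ⊆ (chartAt (E d) x₀).target) {ε₀ : ℝ}
    (hε₀ : 0 < ε₀) :
    ∃ (ρ : E d → ℝ) (ε D : ℝ) (Q : Set (E d)) (f : E d → ℝ), 0 < ε ∧ ε ≤ ε₀ ∧
      Loc x₀ χ ρ ε D Q f := by
  obtain ⟨Q, hQ, hTQ, hQV⟩ := exists_compact_between hχc (chartAt (E d) x₀).open_target hχV
  obtain ⟨Q₂, hQ₂, hQQ₂, hQ₂V⟩ := exists_compact_between hQ (chartAt (E d) x₀).open_target hQV
  obtain ⟨f, hf1, hf0, -, hfI⟩ := exists_continuous_one_zero_of_isCompact hQ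
    (t := (interior Q₂)ᶜ) isOpen_interior.isClosed_compl
    (disjoint_compl_right_iff_subset.2 hQQ₂)
  obtain ⟨D, hD⟩ := (hχ.continuous_fderiv (by simp)).bounded_above_of_compact_support
    (hχc.fderiv ℝ)
  have hD0 : 0 ≤ D := (norm_nonneg _).trans (hD 0)
  have h1 : ∀ᶠ y in 𝓝 (0 : E d), ∀ p ∈ tsupport χ, p + χ p • y ∈ Q := by
    refine IsCompact.eventually_forall_of_forall_eventually hχc
      (P := fun y p => p + χ p • y ∈ Q) fun p hp => ?_
    have hχc' := hχ.continuous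
    have h2 : ContinuousAt (fun z : E d × E d => z.2 + χ z.2 • z.1) (0, p) := by fun_prop
    have h3 : (fun z : E d × E d => z.2 + χ z.2 • z.1) (0, p) = p := by simp
    have h4 : Q ∈ 𝓝 ((fun z : E d × E d => z.2 + χ z.2 • z.1) (0, p)) := by
      rw [h3]
      exact mem_interior_iff_mem_nhds.1 (hTQ hp)
    exact h2.eventually h4
  obtain ⟨ε₁, hε₁, h2⟩ := Metric.nhds_basis_closedBall.mem_iff.1 h1
  obtain ⟨ε, hε⟩ : ∃ ε : ℝ, ε = min ε₀ (min ε₁ (1 / (2 * (D + 1)))) := ⟨_, rfl⟩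
  have hε0 : 0 < ε := by
    rw [hε]
    exact lt_min hε₀ (lt_min hε₁ (by positivity))
  have e1 : ε ≤ ε₀ := by rw [hε]; exact min_le_left _ _
  have e2 : ε ≤ ε₁ := by rw [hε]; exact (min_le_right _ _).trans (min_le_left _ _)
  have e3 : ε ≤ 1 / (2 * (D + 1)) := by
    rw [hε]; exact (min_le_right _ _).trans (min_le_right _ _)
  obtain ⟨ρ, hρ⟩ := moll_exists (d := d) hε0
  refine ⟨ρ, ε, D, Q, f, hε0, e1, hχ, hχ0, hχc, hρ, hD, ?_, hQ, hQV, ?_, hTQ, f.continuous,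
    fun p => (hfI p).1, fun p => (hfI p).2, fun p hp => hf1 hp, Q₂, hQ₂, hQ₂V, ?_⟩
  · rw [le_div_iff₀ (by positivity)] at e3
    nlinarith
  · intro p hp y hy
    exact h2 (mem_closedBall_zero_iff.2 (hy.trans e2)) p hp
  · intro p hp
    exact hf0 fun h => hp (interior_subset h)

omit [IsManifold (𝓡 d) ∞ X] in
theorem Loc.seg {x₀ : X} {χ ρ f : E d → ℝ} {ε D : ℝ} {Q : Set (E d)}
    (L : Loc x₀ χ ρ ε D Q f) : ∀ p ∈ (chartAt (E d) x₀).target, ∀ y, ‖y‖ ≤ ε → ∀ t : ℝ,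
    0 ≤ t → t ≤ 1 → p + (t * χ p) • y ∈ (chartAt (E d) x₀).target := by
  intro p hp y hy t ht0 ht1
  by_cases hpT : p ∈ tsupport χ
  · have h1 : ‖t • y‖ ≤ ε := by
      rw [norm_smul, Real.norm_of_nonneg ht0]
      exact (mul_le_of_le_one_left (norm_nonneg _) ht1).trans hy
    have h2 := L.QV (L.move p hpT (t • y) h1)
    have h3 : χ p • t • y = (t * χ p) • y := by rw [smul_smul, mul_comm]
    rwa [h3] at h2
  · rw [image_eq_zero_of_notMem_tsupport hpT, mul_zero, zero_smul, add_zero]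
    exact hp

theorem stepX [T2Space X] {J : End d X} (hJ : IsAlmostComplex J) {τ : Form d X 2}
    (hτ : IsSmooth τ) (hτt : ∀ x, TamesAt τ J x) (x₀ : X) {χ : E d → ℝ} (hχ : ContDiff ℝ ∞ χ)
    (hχ0 : ∀ p, 0 ≤ χ p) (hχc : HasCompactSupport χ)
    (hχV : tsupport χ ⊆ (chartAt (E d) x₀).target)
    {Ψ : (x : X) → TangentSpace (𝓡 d) x → ℝ} (hΨ : QT Ψ) {b Bc η : ℝ} (hb : 0 < b)
    (hB : 0 ≤ Bc) (hη : 0 < η) :
    ∃ (R : Form d X 2 → Form d X 2) (A' : (X → ℝ) → X → ℝ),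
      (∀ σ, IsSmooth σ → IsClosedForm σ → ∃ (α : Form d X 1) (ρ : Form d X 2), IsSmooth α ∧
        IsSmooth ρ ∧ IsD α ρ ∧ R σ = σ + ρ) ∧
      (∀ h, Continuous h → (∀ x, 0 ≤ h x) → Continuous (A' h) ∧ ∀ x, 0 ≤ A' h x) ∧
      (∀ σ h δ, IsSmooth σ → IsClosedForm σ → Continuous h → (∀ x, 0 ≤ h x) → 0 ≤ δ →
        HH J τ Ψ b Bc δ σ h →
        HH J τ (fun x v => Ψ x v / 2) (b / 6) (2 * Bc) (2 * δ + η) (R σ)
          (fun x => 4 * A' h x)) ∧
      (∀ h : ℕ → X → ℝ, (∀ k, Continuous (h k)) → (∀ k x, 0 ≤ h k x) → MS d h →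
        MS d (fun k => A' (h k)) ∧ ∀ O, US h O → US (fun k => A' (h k))
          (O ∪ {x | x ∈ (chartAt (E d) x₀).source ∧ χ (chartAt (E d) x₀ x) ≠ 0})) := by
  classical
  obtain ⟨V, hVd⟩ : ∃ V, V = (chartAt (E d) x₀).target := ⟨_, rfl⟩
  have hQf := qt_q hJ hτ hτt x₀
  have hpos : ∀ p ∈ (chartAt (E d) x₀).target, ∀ v : E d, v ≠ 0 →
      0 < (fun z : E d × E d => q τ J ((chartAt (E d) x₀).symm z.1) (A x₀ z.1 z.2)) (p, v) :=
    fun p hp v hv => hτt _ _ (A_inj x₀ hp hv)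
  obtain ⟨ε₀, hε₀, hest⟩ := est (chartAt (E d) x₀).open_target hχc hχV hχ (hJ.cont x₀) hQf hpos
    (hΨ x₀) hb hB hη
  obtain ⟨ρ, ε, D, Q, f, hε, hεε₀, L⟩ := exists_loc x₀ hχ hχ0 hχc hχV hε₀
  choose α η' k1 k2 k3 k4 k5 using fun (σ : Form d X 2) (h : IsSmooth σ ∧ IsClosedForm σ) =>
    reg x₀ hχ hχ0 hχc hχV hε L.moll L.seg h.1 h.2
  obtain ⟨R, hR⟩ : ∃ R : Form d X 2 → Form d X 2, ∀ σ (h : IsSmooth σ ∧ IsClosedForm σ),
      R σ = σ + η' σ h :=
    ⟨fun σ => if h : IsSmooth σ ∧ IsClosedForm σ then σ + η' σ h else σ, fun σ h => dif_pos h⟩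
  refine ⟨R, AA x₀ χ ρ f, ?_, ?_, ?_, ?_⟩
  · intro σ h1 h2
    exact ⟨α σ ⟨h1, h2⟩, η' σ ⟨h1, h2⟩, k1 _ _, k2 _ _, k3 _ _, hR _ _⟩
  · intro h hc h0
    exact ⟨L.AA_cont hc, L.AA_nonneg h0⟩
  · intro σ h δ hs hcl hc h0 hδ H
    rw [hR σ ⟨hs, hcl⟩]
    have hJJ := k5 σ ⟨hs, hcl⟩
    have hout := k4 σ ⟨hs, hcl⟩
    obtain ⟨σ', hσ'⟩ : ∃ σ', σ' = σ + η' σ ⟨hs, hcl⟩ := ⟨_, rfl⟩
    rw [← hσ'] at hJJ hout ⊢
    have hsc : ContinuousOn (pb (chartAt (E d) x₀).symm σ) (chartAt (E d) x₀).target :=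
      (hs _ _ (chartAt (E d) x₀).open_target contMDiffOn_chart_symm).continuousOn
    have hhc : ContinuousOn (fun p => h ((chartAt (E d) x₀).symm p)) (chartAt (E d) x₀).target :=
      hc.comp_continuousOn (chartAt (E d) x₀).continuousOn_symm
    have hE := hest ε hεε₀ ρ L.moll (pb (chartAt (E d) x₀).symm σ)
      (fun p => h ((chartAt (E d) x₀).symm p)) δ hsc hhc (fun p _ => h0 _) hδ
      (fun p hp v => by
        have h1 := H.low ((chartAt (E d) x₀).symm p) (A x₀ p v)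
        rw [q_chart σ J x₀ hp v] at h1
        exact h1)
      (fun p hp u w v => by
        have h1 := H.con ((chartAt (E d) x₀).symm p) (A x₀ p u) (A x₀ p w) (A x₀ p v)
        rw [q_chart σ J x₀ hp v] at h1
        have h2 : pb (chartAt (E d) x₀).symm σ p ![u, w] =
          σ ((chartAt (E d) x₀).symm p) ![A x₀ p u, A x₀ p w] := pb_app2 _ _ _ _ _
        rw [h2]
        exact h1)
    have hΨ0 := hΨ.nonneg
    have hq0 : ∀ (x : X) (v : TangentSpace (𝓡 d) x), 0 ≤ q τ J x v := fun x v =>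
      q_nonneg (hτt x) v
    refine ⟨?_, ?_⟩
    · intro x v
      by_cases hx : x ∈ (chartAt (E d) x₀).symm '' tsupport χ
      · obtain ⟨p, hp, rfl⟩ := hx
        have hpt := hχV hp
        obtain ⟨v', hv'⟩ : ∃ v' : E d, v' = B x₀ p v := ⟨_, rfl⟩
        have hv := AB x₀ hpt v
        rw [← hv'] at hv
        have h1 := (hE p hp).2.1 v'
        rw [← hJJ p hpt, ← q_chart σ' J x₀ hpt v'] at h1
        simp only at h1
        rw [hv, ← L.av_eq hp] at h1
        have h2 : AA x₀ χ ρ f h ((chartAt (E d) x₀).symm p) = av ρ χ (ext x₀ f h) p := by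
          unfold AA
          rw [(chartAt (E d) x₀).right_inv hpt,
            if_pos ⟨(chartAt (E d) x₀).map_target hpt, hp⟩]
        rw [h2]
        exact h1
      · have h1 : σ' x = σ x := hout x (by
          by_contra hcon
          push Not at hcon
          exact hx (L.mem_S.2 hcon))
        have h2 : q σ' J x v = q σ J x v := by
          show σ' x ![v, J x v] = σ x ![v, J x v]
          rw [h1]
        rw [h2, L.out_eq hx]
        refine le_trans ?_ (H.low x v)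
        have h3 := hΨ0 x v
        have h4 := hq0 x v
        have h5 := h0 x
        have : 0 ≤ (δ + η + 3 * h x) * q τ J x v := by positivity
        linarith
    · intro x u w v
      by_cases hx : x ∈ (chartAt (E d) x₀).symm '' tsupport χ
      · obtain ⟨p, hp, rfl⟩ := hx
        have hpt := hχV hp
        obtain ⟨v', hv'⟩ : ∃ v' : E d, v' = B x₀ p v := ⟨_, rfl⟩
        have hv := AB x₀ hpt v
        rw [← hv'] at hv
        obtain ⟨u', hu'⟩ : ∃ u' : E d, u' = B x₀ p u := ⟨_, rfl⟩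
        have hu := AB x₀ hpt u
        rw [← hu'] at hu
        obtain ⟨w', hw'⟩ : ∃ w' : E d, w' = B x₀ p w := ⟨_, rfl⟩
        have hw := AB x₀ hpt w
        rw [← hw'] at hw
        have h1 := (hE p hp).2.2 u' w' v'
        rw [← hJJ p hpt, ← q_chart σ' J x₀ hpt v'] at h1
        have h3 : pb (chartAt (E d) x₀).symm σ' p ![u', w'] =
          σ' ((chartAt (E d) x₀).symm p) ![A x₀ p u', A x₀ p w'] := pb_app2 _ _ _ _ _
        rw [h3] at h1
        simp only at h1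
        rw [hv, hu, hw, ← L.av_eq hp] at h1
        have h2 : AA x₀ χ ρ f h ((chartAt (E d) x₀).symm p) = av ρ χ (ext x₀ f h) p := by
          unfold AA
          rw [(chartAt (E d) x₀).right_inv hpt,
            if_pos ⟨(chartAt (E d) x₀).map_target hpt, hp⟩]
        rw [h2]
        exact h1
      · have h1 : σ' x = σ x := hout x (by
          by_contra hcon
          push Not at hcon
          exact hx (L.mem_S.2 hcon))
        have h2 : q σ' J x v = q σ J x v := by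
          show σ' x ![v, J x v] = σ x ![v, J x v]
          rw [h1]
        rw [h2, L.out_eq hx, h1]
        have h3 := H.con x u w v
        have h4 := hq0 x v
        have h5 := h0 x
        have h6 : 0 ≤ |σ x ![u, w]| * q τ J x v := by positivity
        have h7 : 0 ≤ √(q τ J x u) * √(q τ J x w) := by positivity
        have h8 : b / 6 * |σ x ![u, w]| * q τ J x v ≤ b * |σ x ![u, w]| * q τ J x v := by
          have : 0 ≤ b * (|σ x ![u, w]| * q τ J x v) := by positivity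
          nlinarith
        refine h8.trans (h3.trans (mul_le_mul_of_nonneg_right ?_ h7))
        have : 0 ≤ (Bc + 3 * h x) * q τ J x v := by positivity
        nlinarith
  · intro h hc h0 hm
    exact ⟨L.MS_AA hc h0 hm, fun O hu => L.US_AA hc h0 hm hu⟩

end Pool.Agent.L7h49.LT
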