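import Pool.Agent.L7h49.LT.Bdd

/-!
# Smooth two-forms on a closed manifold are bounded
-/

set_option autoImplicit false

open Set Filter Topology MeasureTheory
open scoped Manifold ContDiff ENNReal

noncomputable section

namespace Pool.Agent.L7h49.LT

open Pool.Agent.Y501.SY
open Pool.Agent.N13.TL (q q_nonneg FC Reached Ctrl Locus Fib RS q_add q_smul q_J q_zero)
open Pool.Agent.Y455.SY (A B AB BA Q_eq Q_cont Q_smul)

variable {d : ℕ} {X : Type} [TopologicalSpace X] [ChartedSpace (E d) X]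
  [IsManifold (𝓡 d) ∞ X]

theorem pair_near {J : End d X} (hJ : IsAlmostComplex J) {σ τ : Form d X 2} (hσ : IsSmooth σ)
    (hτ : IsSmooth τ) (h : ∀ x, TamesAt τ J x) (x : X) : ∃ ε : ℝ, 0 < ε ∧ ∀ᶠ y in 𝓝 x,
    ∀ u w : TangentSpace (𝓡 d) y, ε * |σ y ![u, w]| ≤ √(q τ J y u) * √(q τ J y w) := by
  obtain ⟨r, hr, hball⟩ := Metric.nhds_basis_closedBall.mem_iff.1
    ((chartAt (E d) x).open_target.mem_nhds (mem_chart_target (E d) x))
  have hKc := isCompact_closedBall (chartAt (E d) x x) r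
  obtain ⟨c, hc, hc'⟩ := (Pool.Agent.Y44.SY.t_QB d X J hJ τ hτ x _ hKc hball).2 fun p _ => h _
  obtain ⟨⟨C, hC, hC'⟩, -⟩ := Pool.Agent.Y44.SY.t_QB d X J hJ σ hσ x _ hKc hball
  refine ⟨c / C, by positivity, ?_⟩
  have hN : ∀ᶠ y in 𝓝 x, chartAt (E d) x y ∈ Metric.closedBall (chartAt (E d) x x) r :=
    ((chartAt (E d) x).continuousAt (mem_chart_source (E d) x)).eventually
      (Metric.closedBall_mem_nhds _ hr)
  filter_upwards [hN, (chartAt (E d) x).open_source.mem_nhds (mem_chart_source (E d) x)]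
    with y hy hys u w
  have key : ∀ (p : E d), p ∈ Metric.closedBall (chartAt (E d) x x) r →
      ∀ u w : E d, c / C * |σ ((chartAt (E d) x).symm p) ![u, w]| ≤
        √(q τ J ((chartAt (E d) x).symm p) u) * √(q τ J ((chartAt (E d) x).symm p) w) := by
    intro p hp u w
    have hpt := hball hp
    have hq : ∀ u : E d, √c * ‖B x p u‖ ≤ √(q τ J ((chartAt (E d) x).symm p) u) := by
      intro u
      have h1 := hc' p hp (B x p u)
      have h2 : pb (chartAt (E d) x).symm τ p ![B x p u, inChart J x p (B x p u)] =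
          q τ J ((chartAt (E d) x).symm p) u := by
        have h3 := Q_eq τ J x hpt (B x p u)
        rw [AB x hpt] at h3
        exact h3
      rw [h2] at h1
      calc √c * ‖B x p u‖ = √(c * ‖B x p u‖ ^ 2) := by
            rw [Real.sqrt_mul hc.le, Real.sqrt_sq (norm_nonneg _)]
        _ ≤ _ := Real.sqrt_le_sqrt h1
    have h4 : σ ((chartAt (E d) x).symm p) ![u, w] =
        pb (chartAt (E d) x).symm σ p ![B x p u, B x p w] := by
      have h5 : pb (chartAt (E d) x).symm σ p ![B x p u, B x p w] =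
          σ ((chartAt (E d) x).symm p) ![A x p (B x p u), A x p (B x p w)] := by
        show σ ((chartAt (E d) x).symm p)
          (fun i => mfderiv (𝓡 d) (𝓡 d) (chartAt (E d) x).symm p
            ((![B x p u, B x p w] : Fin 2 → E d) i)) = _
        congr 1
        funext i
        fin_cases i <;> rfl
      rw [AB x hpt, AB x hpt] at h5
      exact h5.symm
    have h6 : |pb (chartAt (E d) x).symm σ p ![B x p u, B x p w]| ≤
        C * (‖B x p u‖ * ‖B x p w‖) := by
      have h7 := (pb (chartAt (E d) x).symm σ p).le_opNorm ![B x p u, B x p w]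
      rw [Fin.prod_univ_two] at h7
      calc |pb (chartAt (E d) x).symm σ p ![B x p u, B x p w]|
          ≤ ‖pb (chartAt (E d) x).symm σ p‖ * (‖B x p u‖ * ‖B x p w‖) := h7
        _ ≤ C * (‖B x p u‖ * ‖B x p w‖) :=
            mul_le_mul_of_nonneg_right (hC' p hp).1 (by positivity)
    rw [h4]
    calc c / C * |pb (chartAt (E d) x).symm σ p ![B x p u, B x p w]|
        ≤ c / C * (C * (‖B x p u‖ * ‖B x p w‖)) := mul_le_mul_of_nonneg_left h6 (by positivity)
      _ = (√c * ‖B x p u‖) * (√c * ‖B x p w‖) := by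
          have h8 : √c * √c = c := Real.mul_self_sqrt hc.le
          have h9 : c / C * (C * (‖B x p u‖ * ‖B x p w‖)) = c * (‖B x p u‖ * ‖B x p w‖) := by
            field_simp
          rw [h9]
          nth_rewrite 1 [← h8]
          ring
      _ ≤ _ := mul_le_mul (hq u) (hq w) (by positivity) (Real.sqrt_nonneg _)
  have h1 := key (chartAt (E d) x y) hy
  rw [(chartAt (E d) x).left_inv hys] at h1
  exact h1 u w

/-- smooth two-forms are bounded -/
theorem pair_bound [CompactSpace X] {J : End d X} (hJ : IsAlmostComplex J) {σ τ : Form d X 2}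
    (hσ : IsSmooth σ) (hτ : IsSmooth τ) (h : ∀ x, TamesAt τ J x) :
    ∃ C : ℝ, 0 < C ∧ ∀ (x : X) (u w : TangentSpace (𝓡 d) x),
      |σ x ![u, w]| ≤ C * (√(q τ J x u) * √(q τ J x w)) := by
  obtain ⟨ε, hε, h1⟩ := unif (isCompact_univ (X := X))
    (fun (ε : ℝ) (y : X) => ∀ u w : TangentSpace (𝓡 d) y,
      ε * |σ y ![u, w]| ≤ √(q τ J y u) * √(q τ J y w))
    (fun ε ε' y hle hp u w => (mul_le_mul_of_nonneg_right hle (abs_nonneg _)).trans (hp u w))
    (fun x _ => pair_near hJ hσ hτ h x)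
  refine ⟨ε⁻¹, inv_pos.2 hε, fun x u w => ?_⟩
  rw [inv_mul_eq_div, le_div_iff₀ hε, mul_comm]
  exact h1 x (mem_univ x) u w

end Pool.Agent.L7h49.LT
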